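import Pool.Agent.helper11.VQ.Spec3a

/-!
# Project VD (MP_07c750_an, quantum unique ergodicity in every dimension), block E, part 0: ABSTRACT ROWS `vd:EAX` (eigenfunctions and step operators on an abstract phase space)

These rows contain no geometry: `Y` is a phase space with an action of `Γ` (structure `VQ.PS` of block 3a: invariant measure `m`, fundamental domain `D` of finite measure, invariant pseudo-distance `d`), `K` is the kernel of one unit step, `Φ` are the coefficients of an eigenfunction.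
RULES. Row `vd:XXX`: file `Pool/Agent/<seat>/VD/XXX.lean`, `import Pool.Agent.helper55.VD.SpecE0`, `set_option autoImplicit false`, namespace `Pool.Agent.VDA`, the `open` lines of this file, theorem `XXX_proof (h..) : XXX_stmt` (all other rows of this file and rows of VQ may be hypotheses `(h : YYY_stmt)`, no circles),
auxiliary lemmas prefixed `XXX_`. No `convert`, `congr!`, `native_decide`, no double quotes, no `private`, no commands starting with a sharp sign.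
-/

open scoped ENNReal ComplexConjugate
open MeasureTheory Filter Set

namespace Pool.Agent.VDA

open Pool.Agent.VQ (PS KZ cmZ perZ)
open Pool.Agent.RPQ (IsOp)

noncomputable section

section defs

variable (Γ : Type) [Group Γ] {Y : Type} [MeasurableSpace Y] [MulAction Γ Y]

/-- bounded measurable invariant functions -/
structure FB (v : Y → ℂ) : Prop where
  meas : Measurable v
  bdd : ∃ B : ℝ, ∀ y, ‖v y‖ ≤ B
  inv : ∀ (γ : Γ) (y : Y), v (γ • y) = v y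

/-- measurable invariant real functions with values in `[-1, 1]` -/
structure FR (h : Y → ℝ) : Prop where
  meas : Measurable h
  bd : ∀ y, |h y| ≤ 1
  inv : ∀ (γ : Γ) (y : Y), h (γ • y) = h y

/-- phases -/
structure FT (θ : Y → ℝ) : Prop where
  meas : Measurable θ
  inv : ∀ (γ : Γ) (y : Y), θ (γ • y) = θ y

variable {Γ}

/-- the square of the norm on the quotient -/
def nY (m : Measure Y) (D : Set Y) (v : Y → ℂ) : ℝ := ∫ y in D, ‖v y‖ ^ 2 ∂m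

/-- the operator with the kernel `K` -/
def OY (m : Measure Y) (K : Y → Y → ℂ) (v : Y → ℂ) (y : Y) : ℂ := ∫ x, K y x * v x ∂m

/-- the operator with the kernel `|K|` -/
def OA (m : Measure Y) (K : Y → Y → ℂ) (v : Y → ℂ) (y : Y) : ℝ := ∫ x, ‖K y x‖ * ‖v x‖ ∂m

variable (Γ)

/-- kernels of one step: norm at most `1 + ε`, norm of the modulus at most `b` -/
structure STP (m : Measure Y) (D : Set Y) (d : Y → Y → ℝ) (K : Y → Y → ℂ) (ε b : ℝ) : Prop where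
  kz : KZ Γ d K
  e0 : 0 ≤ ε
  b0 : 0 ≤ b
  con : ∀ v, FB Γ v → nY m D (OY m K v) ≤ (1 + ε) ^ 2 * nY m D v
  abs : ∀ v, FB Γ v → ∫ y in D, OA m K v y ^ 2 ∂m ≤ b ^ 2 * nY m D v

end defs

/-- **Row EAO** (operators; medium). `K y` is bounded and vanishes outside `{x | d y x ≤ T}` (of measure at most `B`, `PS.vol`), `v` is bounded: integrable. Measurable: `StronglyMeasurable.integral_prod_right` (`m` is σ-finite). Invariant: `∫ K (γ y) x v x = ∫ K (γ y) (γ x) v (γ x)` (`act`; `x ↦ γ • x` is a measurable equivalence with the inverse `γ⁻¹`)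
`= ∫ K y x v x`. Composition: Fubini (`integral_integral_swap`; for fixed `y` the function `(p, x) ↦ K y p L p x v x` is bounded and vanishes outside `d y p ≤ T, d y x ≤ T + T'`). Minkowski: `FB` functions are in `L²(m.restrict D)` (bounded, `m D < ⊤`), `eLpNorm_add_le` or the norm of `MemLp.toLp`. Compare the rows KPZ, VUM of VQ (Pool/Agent/helper23/VQ/KPZ.lean). -/
def EAO_stmt : Prop := ∀ (Γ : Type) [Group Γ] (Y : Type) [MeasurableSpace Y] [MulAction Γ Y] (m : Measure Y) (D : Set Y) (d : Y → Y → ℝ), PS Γ Y m D d →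
  (∀ (K : Y → Y → ℂ) (v : Y → ℂ), KZ Γ d K → FB Γ v → FB Γ (OY m K v) ∧ (∀ y, Integrable (fun x => K y x * v x) m) ∧ (∀ y, Integrable (fun x => ‖K y x‖ * ‖v x‖) m) ∧ Measurable (OA m K v) ∧ ∃ B : ℝ, ∀ y, 0 ≤ OA m K v y ∧ OA m K v y ≤ B) ∧
  (∀ (K L : Y → Y → ℂ) (v : Y → ℂ), KZ Γ d K → KZ Γ d L → FB Γ v → KZ Γ d (cmZ m K L) ∧ ∀ y, OY m (cmZ m K L) v y = OY m K (OY m L v) y) ∧
  (∀ v : Y → ℂ, FB Γ v → 0 ≤ nY m D v ∧ IntegrableOn (fun y => ‖v y‖ ^ 2) D m ∧ MemLp v 2 (m.restrict D)) ∧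
  ∀ u v : Y → ℂ, FB Γ u → FB Γ v → Real.sqrt (nY m D (fun y => u y + v y)) ≤ Real.sqrt (nY m D u) + Real.sqrt (nY m D v)

/-- **Row EAC** (the commutator; short; from EAO). `OY K (H v) y - H' y OY K v y = ∫ K y x (H x - H' y) v x`, of modulus `≤ w OA K v y` (the integrand vanishes where `K y x = 0`); square, integrate, `STP.abs`. -/
def EAC_stmt : Prop := ∀ (Γ : Type) [Group Γ] (Y : Type) [MeasurableSpace Y] [MulAction Γ Y] (m : Measure Y) (D : Set Y) (d : Y → Y → ℝ), PS Γ Y m D d → ∀ (K : Y → Y → ℂ) (ε b w : ℝ) (H H' v : Y → ℂ), STP Γ m D d K ε b → 0 ≤ w → FB Γ H → FB Γ H' → FB Γ v →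
  (∀ y x, K y x ≠ 0 → ‖H' y - H x‖ ≤ w) → nY m D (fun y => OY m K (fun x => H x * v x) y - H' y * OY m K v y) ≤ (w * b) ^ 2 * nY m D v

/-- **Row EAM** (all steps; short-medium; from EAO, EAC). `e_k = √(nY (OY (L k) Φ - e^(iθ_k) Φ))`, `e_0 ≤ δ √N`. `OY (L (k+1)) Φ = OY K (OY (L k) Φ) = OY K (e^(iθ_k) Φ) + OY K (err_k)` (EAO); the second term: `≤ (1 + ε) e_k`; the first: EAC with `H = e^(iθ_k)`, `H' = e^(i(θ_(k+1) - η))` (`|e^(ia) - e^(ib)| ≤ |a - b|`):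
`= H' OY K Φ + O(w b √N)`, `= H' e^(iη) Φ + O(w b √N + δ √N)`, `H' e^(iη) = e^(iθ_(k+1))`. So `e_(k+1) ≤ (1 + ε) e_k + (w b + δ) √N`, `e_k ≤ (k + 1) (1 + ε)^k (δ + w b) √N`. All functions are `FB`. -/
def EAM_stmt : Prop := ∀ (Γ : Type) [Group Γ] (Y : Type) [MeasurableSpace Y] [MulAction Γ Y] (m : Measure Y) (D : Set Y) (d : Y → Y → ℝ), PS Γ Y m D d → ∀ (K : Y → Y → ℂ) (L : ℕ → Y → Y → ℂ) (ε b w δ N : ℝ) (η : Y → ℝ) (θ : ℕ → Y → ℝ) (Φ : Y → ℂ) (n : ℕ),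
  STP Γ m D d K ε b → KZ Γ d (L 0) → (∀ k, L (k + 1) = cmZ m K (L k)) → 0 ≤ w → 0 ≤ δ → FB Γ Φ → nY m D Φ ≤ N → FT Γ η → (∀ k, FT Γ (θ k)) →
  (∀ k < n, ∀ y x, K y x ≠ 0 → |θ (k + 1) y - η y - θ k x| ≤ w) →
  nY m D (fun y => OY m K Φ y - Complex.exp (((η y : ℝ) : ℂ) * Complex.I) * Φ y) ≤ δ ^ 2 * N → nY m D (fun y => OY m (L 0) Φ y - Complex.exp (((θ 0 y : ℝ) : ℂ) * Complex.I) * Φ y) ≤ δ ^ 2 * N →
    ∀ k ≤ n, KZ Γ d (L k) ∧ nY m D (fun y => OY m (L k) Φ y - Complex.exp (((θ k y : ℝ) : ℂ) * Complex.I) * Φ y) ≤ ((k + 1) * (1 + ε) ^ k * (δ + w * b)) ^ 2 * N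

/-- **Row EAI** (short; copy of Pool/Agent/helper33/VQ/EAI.lean, the same statement). -/
def EAI_stmt : Prop := ∀ (H : Type) [NormedAddCommGroup H] [InnerProductSpace ℂ H] (a b Va Vb : H) (ε : ℝ), 0 ≤ ε → ε ≤ 1 → (∀ s : ℂ, ‖Vb + s • Va‖ ≤ (1 + ε) * ‖b + s • a‖) → ‖Vb - b‖ ≤ ε * ‖b‖ →
  ‖inner ℂ Va b - inner ℂ a b‖ ≤ 10 * Real.sqrt ε * ‖a‖ * ‖b‖

/-- **Row EAV** (invariance under one step; medium; from EAI, EAO, EAC; compare Pool/Agent/helper25/VQ/EDI.lean). `V v = e^(-iη) OY K v`: `√nY (V v) ≤ (1 + ε) √nY v ≤ (1 + δ) √nY v`, linear, `√nY (VΦ - Φ) ≤ δ √nY Φ`. `∫ H' |Φ|² = ⟨H' Φ, Φ⟩`; replace the first `Φ` by `VΦ`: error `δ nY Φ`;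
`H' VΦ = V(HΦ) + O(w b √nY Φ)` (EAC; the factor `e^(-iη)` has modulus `1`); EAI with `a = HΦ`, `b = Φ`, `Va = V(HΦ)`, `Vb = VΦ`, `ε = δ` in `Lp ℂ 2 (m.restrict D)` (`MemLp.toLp`): error `10 √δ nY Φ`. `δ ≤ √δ`. -/
def EAV_stmt : Prop := ∀ (Γ : Type) [Group Γ] (Y : Type) [MeasurableSpace Y] [MulAction Γ Y] (m : Measure Y) (D : Set Y) (d : Y → Y → ℝ), PS Γ Y m D d → ∀ (K : Y → Y → ℂ) (ε b w δ : ℝ) (η : Y → ℝ) (Φ : Y → ℂ) (H H' : Y → ℝ),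
  STP Γ m D d K ε b → 0 ≤ w → ε ≤ δ → δ ≤ 1 → FB Γ Φ → FT Γ η → FR Γ H → FR Γ H' → (∀ y x, K y x ≠ 0 → |H' y - H x| ≤ w) →
  nY m D (fun y => OY m K Φ y - Complex.exp (((η y : ℝ) : ℂ) * Complex.I) * Φ y) ≤ δ ^ 2 * nY m D Φ →
    |(∫ y in D, H' y * ‖Φ y‖ ^ 2 ∂m) - ∫ y in D, H y * ‖Φ y‖ ^ 2 ∂m| ≤ (w * b + 11 * Real.sqrt δ) * nY m D Φ

/-- **Row EAT** (many steps; short; from EAV, EAO). First part: induction on `k`. Second part: the average of the first part over `k < n` (`integral_finset_sum`; the integrands are integrable: bounded by `‖Φ‖²`); compare `EDV_tel` in Pool/Agent/helper55/VQ/EDV.lean. -/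
def EAT_stmt : Prop := ∀ (Γ : Type) [Group Γ] (Y : Type) [MeasurableSpace Y] [MulAction Γ Y] (m : Measure Y) (D : Set Y) (d : Y → Y → ℝ), PS Γ Y m D d → ∀ (K : Y → Y → ℂ) (ε b w δ : ℝ) (η : Y → ℝ) (Φ : Y → ℂ) (G : ℕ → Y → ℝ) (n : ℕ),
  STP Γ m D d K ε b → 0 ≤ w → ε ≤ δ → δ ≤ 1 → FB Γ Φ → FT Γ η → (∀ k, FR Γ (G k)) → (∀ k < n, ∀ y x, K y x ≠ 0 → |G (k + 1) y - G k x| ≤ w) →
  nY m D (fun y => OY m K Φ y - Complex.exp (((η y : ℝ) : ℂ) * Complex.I) * Φ y) ≤ δ ^ 2 * nY m D Φ →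
    (∀ k ≤ n, |(∫ y in D, G k y * ‖Φ y‖ ^ 2 ∂m) - ∫ y in D, G 0 y * ‖Φ y‖ ^ 2 ∂m| ≤ k * ((w * b + 11 * Real.sqrt δ) * nY m D Φ)) ∧
    (1 ≤ n → |(∫ y in D, ((n : ℝ)⁻¹ * ∑ k ∈ Finset.range n, G k y) * ‖Φ y‖ ^ 2 ∂m) - ∫ y in D, G 0 y * ‖Φ y‖ ^ 2 ∂m| ≤ n * ((w * b + 11 * Real.sqrt δ) * nY m D Φ))

/-- **Row EAX** (transport; short-medium; pure; compare the lemma `EDT_mv` in Pool/Agent/helper55/VQ/EDT.lean). `θ(s) = ∫_0^s g`, `X(s) = e^(-iθ(s)) p(s)` has the derivative `i e^(-iθ) r(s)` (`intervalIntegral.integral_hasStrictDerivAt`: `g` is continuous), so `|p(t) - e^(iθ(t)) p(0)| = |X(t) - X(0)| ≤ ∫_0^t |r|`, the square is `≤ t ∫_0^t |r|²`; Tonelli. -/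
def EAX_stmt : Prop := ∀ (X : Type) [MeasurableSpace X] (μ : Measure X) [SigmaFinite μ] (S : Set X) (p r : ℝ → X → ℂ) (g : ℝ → X → ℝ) (t ρ : ℝ), 0 ≤ t → MeasurableSet S → 0 ≤ ρ → (∀ x ∈ S, Continuous fun s => g s x) → (∀ x ∈ S, ContinuousOn (fun s => r s x) (Icc 0 t)) →
  (∀ x ∈ S, ∀ s ∈ Icc 0 t, HasDerivAt (fun s => p s x) (Complex.I * ((g s x : ℝ) : ℂ) * p s x + Complex.I * r s x) s) →
  AEMeasurable (fun z : X × ℝ => ‖r z.2 z.1‖ₑ ^ 2) ((μ.restrict S).prod (volume.restrict (Icc 0 t))) → (∀ s ∈ Icc 0 t, ∫⁻ x in S, ‖r s x‖ₑ ^ 2 ∂μ ≤ ENNReal.ofReal ρ) →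
    ∫⁻ x in S, ‖p t x - Complex.exp (((∫ s in (0 : ℝ)..t, g s x : ℝ) : ℂ) * Complex.I) * p 0 x‖ₑ ^ 2 ∂μ ≤ ENNReal.ofReal (t ^ 2 * ρ)

/-- **Row EAZ** (from functions to `L²` of the quotient; short; from EAO, VQ.KPZ; compare Pool/Agent/helper22/VQ/EDZ.lean). `T Φ =ᵐ ∫_(y in D) perZ K x y v y = ∫ K x y v y = OY K v x` (KPZ, second conjunct of the first part: `v` is measurable, bounded, invariant); the norm of an element of `Lp ℂ 2`: `L2.norm_sq_eq_inner'`, `MemLp.toLp`. -/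
def EAZ_stmt : Prop := ∀ (Γ : Type) [Group Γ] (Y : Type) [MeasurableSpace Y] [MulAction Γ Y] (m : Measure Y) (D : Set Y) (d : Y → Y → ℝ), PS Γ Y m D d → ∀ (K : Y → Y → ℂ) (v : Y → ℂ), KZ Γ d K → FB Γ v →
  (∀ y, ∫ x in D, perZ Γ K y x * v x ∂m = OY m K v y) ∧
  (∀ (T : Lp ℂ 2 (m.restrict D) →L[ℂ] Lp ℂ 2 (m.restrict D)) (Φ : Lp ℂ 2 (m.restrict D)), IsOp (m.restrict D) (perZ Γ K) T → (Φ : Y → ℂ) =ᵐ[m.restrict D] v → ‖T Φ - Φ‖ ^ 2 = nY m D (fun y => OY m K v y - v y)) ∧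
  ∫⁻ y in D, ‖v y‖ₑ ^ 2 ∂m = ENNReal.ofReal (nY m D v)

end

end Pool.Agent.VDA
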