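import Pool.Agent.helper55.VD.SpecE0

set_option autoImplicit false

open scoped MatrixGroups ContDiff Topology UpperHalfPlane ComplexConjugate ENNReal
open UpperHalfPlane MeasureTheory Filter Set

namespace Pool.Agent.VDA

open Pool.Agent.RS
open Pool.Agent.RPQ (CEig mean VV IsOp)

noncomputable section

section

variable {H : Type} [NormedAddCommGroup H] [InnerProductSpace ℂ H]

lemma EAI_bd (a b Va Vb : H) (ε : ℝ) (h0 : 0 ≤ ε) (hs : ∀ s : ℂ, ‖Vb + s • Va‖ ≤ (1 + ε) * ‖b + s • a‖) :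
    ‖Va‖ ≤ (1 + ε) * ‖a‖ := by
  by_contra hcon
  push Not at hcon
  obtain ⟨n, hn⟩ := exists_nat_gt (((1 + ε) * ‖b‖ + ‖Vb‖) / (‖Va‖ - (1 + ε) * ‖a‖))
  rw [div_lt_iff₀ (by linarith)] at hn
  have h1 := hs (n : ℂ)
  have h2 : ‖((n : ℂ)) • Va‖ ≤ ‖Vb + ((n : ℂ)) • Va‖ + ‖Vb‖ := by
    have h3 : ((n : ℂ)) • Va = (Vb + ((n : ℂ)) • Va) - Vb := by abel
    calc ‖((n : ℂ)) • Va‖ = ‖(Vb + ((n : ℂ)) • Va) - Vb‖ := by rw [← h3]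
      _ ≤ _ := norm_sub_le _ _
  have h4 := norm_add_le b (((n : ℂ)) • a)
  rw [norm_smul, Complex.norm_natCast] at h2 h4
  have h5 : (1 + ε) * ‖b + ((n : ℂ)) • a‖ ≤ (1 + ε) * (‖b‖ + n * ‖a‖) := mul_le_mul_of_nonneg_left h4 (by linarith)
  nlinarith

lemma EAI_X (a b Va Vb : H) (ε : ℝ) (h0 : 0 ≤ ε) (h1 : ε ≤ 1) (hs : ∀ s : ℂ, ‖Vb + s • Va‖ ≤ (1 + ε) * ‖b + s • a‖)
    (hb : ‖Vb - b‖ ≤ ε * ‖b‖) :
    ‖inner ℂ Vb Va - (((1 + ε) ^ 2 : ℝ) : ℂ) * inner ℂ b a‖ ^ 2 ≤ 16 * ε * (‖a‖ * ‖b‖) ^ 2 := by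
  obtain ⟨X, hX⟩ : ∃ X : ℂ, X = inner ℂ Vb Va - (((1 + ε) ^ 2 : ℝ) : ℂ) * inner ℂ b a := ⟨_, rfl⟩
  rw [← hX]
  have hVb : (1 - ε) * ‖b‖ ≤ ‖Vb‖ := by
    have h2 := norm_sub_norm_le b Vb
    rw [norm_sub_rev] at h2
    linarith
  have hVb2 : (1 - ε) ^ 2 * ‖b‖ ^ 2 ≤ ‖Vb‖ ^ 2 := by
    rw [← mul_pow]
    exact pow_le_pow_left₀ (mul_nonneg (by linarith) (norm_nonneg _)) hVb 2
  have key : ∀ s : ℂ, 2 * (s * X).re ≤ 4 * ε * ‖b‖ ^ 2 + 4 * ‖s‖ ^ 2 * ‖a‖ ^ 2 := by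
    intro s
    have h2 : ‖Vb + s • Va‖ ^ 2 ≤ (1 + ε) ^ 2 * ‖b + s • a‖ ^ 2 := by
      rw [← mul_pow]
      exact pow_le_pow_left₀ (norm_nonneg _) (hs s) 2
    rw [norm_add_sq (𝕜 := ℂ), norm_add_sq (𝕜 := ℂ), inner_smul_right, inner_smul_right, norm_smul, norm_smul, mul_pow, mul_pow] at h2
    have h3 : (s * X).re = (s * inner ℂ Vb Va).re - (1 + ε) ^ 2 * (s * inner ℂ b a).re := by
      have h4 : s * X = s * inner ℂ Vb Va - (((1 + ε) ^ 2 : ℝ) : ℂ) * (s * inner ℂ b a) := by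
        rw [hX]
        ring
      rw [h4, Complex.sub_re, Complex.re_ofReal_mul]
    have h5 : (RCLike.re (s * inner ℂ Vb Va) : ℝ) = (s * inner ℂ Vb Va).re := rfl
    have h6 : (RCLike.re (s * inner ℂ b a) : ℝ) = (s * inner ℂ b a).re := rfl
    rw [h5, h6] at h2
    rw [h3]
    have h7 : 0 ≤ ‖s‖ ^ 2 * ‖Va‖ ^ 2 := by positivity
    have h8 : (1 + ε) ^ 2 * (‖s‖ ^ 2 * ‖a‖ ^ 2) ≤ 4 * (‖s‖ ^ 2 * ‖a‖ ^ 2) := by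
      refine mul_le_mul_of_nonneg_right ?_ (by positivity)
      nlinarith
    nlinarith
  rcases eq_or_ne X 0 with hX0 | hX0
  · have h9 : 0 ≤ 16 * ε * (‖a‖ * ‖b‖) ^ 2 := by positivity
    rw [hX0, norm_zero, zero_pow two_ne_zero]
    exact h9
  · have hXn : 0 < ‖X‖ ^ 2 := by positivity
    have hq : ∀ r : ℝ, 0 ≤ (4 * ‖X‖ ^ 2 * ‖a‖ ^ 2) * (r * r) + (-(2 * ‖X‖ ^ 2)) * r + 4 * ε * ‖b‖ ^ 2 := by
      intro r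
      have h2 := key ((r : ℂ) * (starRingEnd ℂ) X)
      have h3 : ((r : ℂ) * (starRingEnd ℂ) X * X).re = r * ‖X‖ ^ 2 := by
        rw [mul_assoc, mul_comm ((starRingEnd ℂ) X) X, Complex.mul_conj, Complex.normSq_eq_norm_sq, ← Complex.ofReal_mul,
          Complex.ofReal_re]
      have h4 : ‖(r : ℂ) * (starRingEnd ℂ) X‖ ^ 2 = r * r * ‖X‖ ^ 2 := by
        rw [norm_mul, RCLike.norm_conj, mul_pow, Complex.norm_real, Real.norm_eq_abs, sq_abs, pow_two r]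
      rw [h3, h4] at h2
      linarith
    have hd := discrim_le_zero hq
    unfold discrim at hd
    have h5 : ‖X‖ ^ 2 * ‖X‖ ^ 2 ≤ ‖X‖ ^ 2 * (16 * ε * (‖a‖ * ‖b‖) ^ 2) := by
      have h6 : (-(2 * ‖X‖ ^ 2)) ^ 2 - 4 * (4 * ‖X‖ ^ 2 * ‖a‖ ^ 2) * (4 * ε * ‖b‖ ^ 2) =
          4 * (‖X‖ ^ 2 * ‖X‖ ^ 2 - ‖X‖ ^ 2 * (16 * ε * (‖a‖ * ‖b‖) ^ 2)) := by ring
      rw [h6] at hd
      linarith
    exact le_of_mul_le_mul_left h5 hXn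

end

theorem EAI_proof : EAI_stmt := by
  intro H _ _ a b Va Vb ε h0 h1 hs hb
  have hVa := EAI_bd a b Va Vb ε h0 hs
  have hX := EAI_X a b Va Vb ε h0 h1 hs hb
  obtain ⟨X, hXd⟩ : ∃ X : ℂ, X = inner ℂ Vb Va - (((1 + ε) ^ 2 : ℝ) : ℂ) * inner ℂ b a := ⟨_, rfl⟩
  rw [← hXd] at hX
  have hsq : Real.sqrt ε ^ 2 = ε := Real.sq_sqrt h0
  have hs0 : 0 ≤ Real.sqrt ε := Real.sqrt_nonneg ε
  have hs1 : Real.sqrt ε ≤ 1 := Real.sqrt_le_one.2 h1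
  have hεs : ε ≤ Real.sqrt ε := by nlinarith
  have hP : 0 ≤ ‖a‖ * ‖b‖ := by positivity
  have hX1 : ‖X‖ ≤ 4 * Real.sqrt ε * (‖a‖ * ‖b‖) := by
    refine (sq_le_sq₀ (norm_nonneg _) (by positivity)).1 ?_
    calc ‖X‖ ^ 2 ≤ 16 * ε * (‖a‖ * ‖b‖) ^ 2 := hX
      _ = (4 * Real.sqrt ε * (‖a‖ * ‖b‖)) ^ 2 := by
          rw [mul_pow (4 * Real.sqrt ε), mul_pow 4, hsq]
          ring
  have h2 : inner ℂ b Va - inner ℂ b a = X - inner ℂ (Vb - b) Va + (((1 + ε) ^ 2 - 1 : ℝ) : ℂ) * inner ℂ b a := by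
    rw [hXd, inner_sub_left]
    push_cast
    ring
  have h3 : ‖inner ℂ (Vb - b) Va‖ ≤ 2 * ε * (‖a‖ * ‖b‖) := by
    have h4 := norm_inner_le_norm (𝕜 := ℂ) (Vb - b) Va
    have h5 : ‖Vb - b‖ * ‖Va‖ ≤ (ε * ‖b‖) * (2 * ‖a‖) := by
      refine mul_le_mul hb (hVa.trans ?_) (norm_nonneg _) (by positivity)
      exact mul_le_mul_of_nonneg_right (by linarith) (norm_nonneg _)
    linarith
  have h4 : ‖(((1 + ε) ^ 2 - 1 : ℝ) : ℂ) * inner ℂ b a‖ ≤ 3 * ε * (‖a‖ * ‖b‖) := by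
    have h5 := norm_inner_le_norm (𝕜 := ℂ) b a
    have h6 : 0 ≤ (1 + ε) ^ 2 - 1 := by nlinarith
    have h7 : (1 + ε) ^ 2 - 1 ≤ 3 * ε := by nlinarith
    rw [norm_mul, Complex.norm_real, Real.norm_of_nonneg h6]
    calc ((1 + ε) ^ 2 - 1) * ‖inner ℂ b a‖ ≤ (3 * ε) * (‖b‖ * ‖a‖) := mul_le_mul h7 h5 (norm_nonneg _) (by positivity)
      _ = _ := by ring
  have h5 : ‖inner ℂ b Va - inner ℂ b a‖ ≤ 10 * Real.sqrt ε * (‖a‖ * ‖b‖) := by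
    rw [h2]
    have h6 := norm_add_le (X - inner ℂ (Vb - b) Va) ((((1 + ε) ^ 2 - 1 : ℝ) : ℂ) * inner ℂ b a)
    have h7 := norm_sub_le X (inner ℂ (Vb - b) Va)
    have h8 : ε * (‖a‖ * ‖b‖) ≤ Real.sqrt ε * (‖a‖ * ‖b‖) := mul_le_mul_of_nonneg_right hεs hP
    have h9 : 0 ≤ Real.sqrt ε * (‖a‖ * ‖b‖) := by positivity
    linarith
  have h6 : inner ℂ Va b - inner ℂ a b = (starRingEnd ℂ) (inner ℂ b Va - inner ℂ b a) := by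
    rw [map_sub, inner_conj_symm, inner_conj_symm]
  rw [h6, RCLike.norm_conj]
  linarith

end

end Pool.Agent.VDA
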