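import Pool.Agent.helper55.VD.SpecE5

/-!
# Project VD (MP_07c750_an), block E, row `vd:EG3`: the interface (I3), the fixed vector
-/

set_option autoImplicit false

open scoped ContDiff Topology InnerProductSpace ComplexConjugate ENNReal
open MeasureTheory Filter Set

namespace Pool.Agent.VD

open Pool.Agent.VQ (CH KZ PS perZ cmZ)
open Pool.Agent.RPQ (IsOp)
open Pool.Agent.VDA (STP FB FR FT nY OY OA)
open Pool.Agent.VDE (FDX)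

noncomputable section

theorem EG3_sq3 (a b c : ℂ) : ‖a - b + c‖ ^ 2 ≤ 3 * (‖a‖ ^ 2 + ‖b‖ ^ 2 + ‖c‖ ^ 2) := by
  have h1 : ‖a - b + c‖ ≤ ‖a‖ + ‖b‖ + ‖c‖ := (norm_add_le _ _).trans (by linarith [norm_sub_le a b])
  have h2 : ‖a - b + c‖ ^ 2 ≤ (‖a‖ + ‖b‖ + ‖c‖) ^ 2 := pow_le_pow_left₀ (norm_nonneg _) h1 2
  nlinarith [sq_nonneg (‖a‖ - ‖b‖), sq_nonneg (‖b‖ - ‖c‖), sq_nonneg (‖a‖ - ‖c‖)]

theorem EG3_sq2 (x : ℝ) (hx : 0 < x) (a b : ℂ) : ‖a‖ ^ 2 ≤ (1 + x) * ‖b‖ ^ 2 + (1 + 1 / x) * ‖a - b‖ ^ 2 := by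
  have h1 : ‖a‖ ≤ ‖b‖ + ‖a - b‖ := by
    calc ‖a‖ = ‖b + (a - b)‖ := by ring_nf
      _ ≤ _ := norm_add_le _ _
  have h2 : ‖a‖ ^ 2 ≤ (‖b‖ + ‖a - b‖) ^ 2 := pow_le_pow_left₀ (norm_nonneg _) h1 2
  have h3 : 2 * ‖b‖ * ‖a - b‖ ≤ x * ‖b‖ ^ 2 + 1 / x * ‖a - b‖ ^ 2 := by
    have h4 : x * (2 * ‖b‖ * ‖a - b‖) ≤ x * (x * ‖b‖ ^ 2 + 1 / x * ‖a - b‖ ^ 2) := by
      have : x * (x * ‖b‖ ^ 2 + 1 / x * ‖a - b‖ ^ 2) = (x * ‖b‖) ^ 2 + ‖a - b‖ ^ 2 := by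
        field_simp
      rw [this]
      nlinarith [sq_nonneg (x * ‖b‖ - ‖a - b‖)]
    exact le_of_mul_le_mul_left h4 hx
  nlinarith

theorem EG3_add {Y : Type} [MeasurableSpace Y] (m : Measure Y) (g1 g2 g3 : Y → ℝ) (h1 : Integrable g1 m) (h2 : Integrable g2 m) (h3 : Integrable g3 m) :
    3 * ((∫ y, g1 y ∂m) + (∫ y, g2 y ∂m) + ∫ y, g3 y ∂m) = ∫ y, 3 * (g1 y + g2 y + g3 y) ∂m := by
  have e1 : ∫ y, 3 * (g1 y + g2 y + g3 y) ∂m = 3 * ∫ y, (g1 y + g2 y + g3 y) ∂m := integral_const_mul _ _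
  have e2 : ∫ y, (g1 y + g2 y + g3 y) ∂m = (∫ y, (g1 y + g2 y) ∂m) + ∫ y, g3 y ∂m := integral_add (f := fun y => g1 y + g2 y) (h1.add h2) h3
  have e3 : ∫ y, (g1 y + g2 y) ∂m = (∫ y, g1 y ∂m) + ∫ y, g2 y ∂m := integral_add h1 h2
  rw [e1, e2, e3]

theorem EG3_proof (hEF3 : EF3_stmt) (hEG0 : EG0_stmt) (hEE1 : EE1_stmt) (hEST : EST_stmt) (hEAO : Pool.Agent.VDA.EAO_stmt) (hEAZ : Pool.Agent.VDA.EAZ_stmt) (hATND : ATND_stmt) (hAUMD : AUMD_stmt) (hLEN : LEN_stmt)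
    (hAMVI : AMVI_stmt) (hEYP : EYP_stmt) : EG3_stmt := by
  intro d Γ _ _ K F0 r0 χ ch k B B' hd hK hF0 hPU hch
  obtain ⟨hFD, B2, hB2, h0⟩ := hEG0 d Γ K F0 r0 χ ch k B B' hd hK hF0 hPU hch
  obtain ⟨C1, hC1, h1⟩ := hEF3 d Γ K k B2 r0 χ hK hPU
  obtain ⟨C2, hC2, h2⟩ := hEST d Γ K k B2 r0 χ hK hPU
  obtain ⟨C3, hC3, h3⟩ := hATND d Γ K k B2 r0 χ hK hPU
  obtain ⟨C4, hC4, h4⟩ := hAUMD d Γ K k B2 r0 χ hK hPU
  obtain ⟨R5, hR5, h5⟩ := hEE1 d Γ K k B2 hK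
  refine ⟨C1 + C2 + C3 + C4 + 8, by linarith, ?_⟩
  intro A hA
  have hA1 : Adm C1 A := EAM0 hA hC1 (by linarith)
  have hA2 : Adm C2 A := EAM0 hA hC2 (by linarith)
  have hA3 : Adm C3 A := EAM0 hA hC3 (by linarith)
  have hA4 : Adm C4 A := EAM0 hA hC4 (by linarith)
  have hA8 : Adm 8 A := EAM0 hA (by norm_num) (by linarith)
  have hz := EAM1 hA8 (by norm_num)
  have hz0 : 0 < A.z := hz.1
  have hz8 : A.z ≤ 1 / 8 := by linarith [hz.2.1, hz.2.2.2.1, hz.2.2.2.2.2.2.1]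
  obtain ⟨R0, hR0, h0⟩ := h0 A.z hz0 hz8
  obtain ⟨R1, hR1, h1⟩ := h1 ch A hch hA1
  obtain ⟨R2, hR2, h2⟩ := h2 ch A hch hA2
  obtain ⟨R3, hR3, h3⟩ := h3 ch A hch hA3
  obtain ⟨R4, hR4, h4⟩ := h4 ch A hch hA4
  have h36 : (0 : ℝ) ≤ (36 : ℝ) ^ (200 : ℕ) := by positivity
  refine ⟨1 / 200, R0 + R1 + R2 + R3 + R4 + R5 + (36 : ℝ) ^ (200 : ℕ), by norm_num, by linarith, ?_⟩
  intro R G Φ f f' μ φ hR hG hΦ hEg
  have hR1' : 1 ≤ R := by linarith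
  have hRpos : 0 < R := by linarith
  have hG2 : Cls Γ K k B2 G := hB2 G hG
  have hOK : OKA Γ K k B2 G Φ := ⟨hK, hG2, hΦ⟩
  obtain ⟨hEgT, hFHφ, hFHu, hpt, hN1, hN2, hN3, hFPφ, hFPu, hP1, hP2⟩ := h0 R G f f' μ φ (by linarith) hG hEg
  have hAp := h5 F0 G R f f' μ φ (by linarith) hFD hG2 hEgT
  obtain ⟨hu1, hu2, hu3⟩ := h1 R F0 G Φ f (uE f' φ) (by linarith) hFD hOK hAp
  haveI hcnt : Countable Γ := (hAMVI d Γ K k B2 G hK hG2).1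
  obtain ⟨L, hL1, hL2, hL3, hL4⟩ := hLEN Γ hcnt
  obtain ⟨hPS, hSTP, hKZ, -, hOY, hnY, hFB⟩ := h2 R F0 G Φ L (by linarith) hFD hOK ⟨hL1, hL2, hL3, hL4⟩
  obtain ⟨-, h3b⟩ := h3 R G Φ (by linarith) hOK
  obtain ⟨-, hKB, hcon⟩ := h3b f hEgT.sm.smooth.continuous
  obtain ⟨-, -, -, husn, -, -, -⟩ := h4 R G Φ (by linarith) hOK
  obtain ⟨hO1, hO2, hO3, hO4⟩ := hEAO Γ (YS Γ d) (mW Γ G r0 R) (DT d {(1 : Γ)}) (dYS L) hPS
  have hKBZ := hKZ _ hKB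
  have hZ := hEAZ Γ (YS Γ d) (mW Γ G r0 R) (DT d {(1 : Γ)}) (dYS L) hPS (KB G Φ r0 χ ch A R f)
  -- names
  set N := nn G F0 φ with hNdef
  set Nu := nn G F0 (uE f' φ) with hNudef
  set q : YS Γ d → ℂ := QF G χ ch A.z R φ with hq
  set qu : YS Γ d → ℂ := QF G χ ch A.z R (uE f' φ) with hqu
  have hN0 : 0 ≤ N := by
    rw [hNdef]
    exact integral_nonneg fun z => by positivity
  have hFBq : FB Γ q := (hFB q).2 hFPφ
  have hFBu : FB Γ qu := (hFB qu).2 hFPu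
  have hw : FB Γ (fun y => qu y - q y) := by
    refine ⟨hFBu.meas.sub hFBq.meas, ?_, fun γ y => by simp only [hFBu.inv, hFBq.inv]⟩
    obtain ⟨b1, hb1⟩ := hFBu.bdd
    obtain ⟨b2, hb2⟩ := hFBq.bdd
    exact ⟨b1 + b2, fun y => (norm_sub_le _ _).trans (add_le_add (hb1 y) (hb2 y))⟩
  have hP1' : nY (mW Γ G r0 R) (DT d {(1 : Γ)}) (fun y => qu y - q y) ≤ 2 * R ^ (-1 : ℝ) * N := by
    rw [hnY]
    exact hP1
  -- numbers
  have h200 : (36 : ℝ) ≤ R ^ (1 / 200 : ℝ) := by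
    have e : ((36 : ℝ) ^ (200 : ℕ)) ^ (1 / 200 : ℝ) = 36 := by
      rw [← Real.rpow_natCast, ← Real.rpow_mul (by norm_num)]
      norm_num
    rw [← e]
    exact Real.rpow_le_rpow h36 (by linarith) (by norm_num)
  have hx0 : 0 < R ^ (-(1 / 8) : ℝ) := Real.rpow_pos_of_pos hRpos _
  set x := R ^ (-(1 / 8) : ℝ) with hx
  have hx1 : 36 * x ≤ R ^ (-(1 / 200) : ℝ) := by
    calc 36 * x ≤ R ^ (1 / 200 : ℝ) * x := mul_le_mul_of_nonneg_right h200 hx0.le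
      _ = R ^ (1 / 200 + -(1 / 8) : ℝ) := by rw [hx, ← Real.rpow_add hRpos]
      _ ≤ R ^ (-(1 / 200) : ℝ) := Real.rpow_le_rpow_of_exponent_le hR1' (by norm_num)
  have h36x : 36 * x ≤ 1 := hx1.trans (Real.rpow_le_one_of_one_le_of_nonpos hR1' (by norm_num))
  have h5x : R ^ (-(1 / 5) : ℝ) ≤ x := Real.rpow_le_rpow_of_exponent_le hR1' (by norm_num)
  have h2x : R ^ (-(1 / 2) : ℝ) ≤ x := Real.rpow_le_rpow_of_exponent_le hR1' (by norm_num)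
  have h1x : R ^ (-1 : ℝ) ≤ x * x := by
    rw [hx, ← Real.rpow_add hRpos]
    exact Real.rpow_le_rpow_of_exponent_le hR1' (by norm_num)
  have hUB : ∫⁻ y in DT d {(1 : Γ)}, ‖q y‖ₑ ^ 2 ∂mW Γ G r0 R = ENNReal.ofReal (nY (mW Γ G r0 R) (DT d {(1 : Γ)}) q) := (hZ q hKBZ hFBq).2.2
  refine ⟨hFPφ.meas, ?_, ?_, ?_⟩
  · rw [hUB, hnY]
    refine ENNReal.ofReal_le_ofReal (hP2.trans ?_)
    refine mul_le_mul_of_nonneg_right ?_ hN0
    have : R ^ (-(1 / 4) : ℝ) ≤ R ^ (-(1 / 200) : ℝ) := Real.rpow_le_rpow_of_exponent_le hR1' (by norm_num)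
    linarith
  · -- the lower bound
    obtain ⟨-, hGm, -⟩ := hEYP d Γ G r0 1 R hG2.met
    have hint : ∀ v : YS Γ d → ℂ, FB Γ v → Integrable (fun y => ‖v y‖ ^ 2) ((mW Γ G r0 R).restrict (DT d {(1 : Γ)} ∩ GW Γ G r0 1 R)) := by
      intro v hv
      exact (hO3 v hv).2.1.mono_set inter_subset_left
    have hofR : ∀ v : YS Γ d → ℂ, FB Γ v → ∫⁻ y in DT d {(1 : Γ)} ∩ GW Γ G r0 1 R, ‖v y‖ₑ ^ 2 ∂mW Γ G r0 R = ENNReal.ofReal (∫ y in DT d {(1 : Γ)} ∩ GW Γ G r0 1 R, ‖v y‖ ^ 2 ∂mW Γ G r0 R) := by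
      intro v hv
      rw [ofReal_integral_eq_lintegral_ofReal (hint v hv) (ae_of_all _ fun y => by positivity)]
      refine lintegral_congr fun y => ?_
      rw [ENNReal.ofReal_pow (norm_nonneg _), ofReal_norm]
    have hI1 : ∫ y in DT d {(1 : Γ)} ∩ GW Γ G r0 1 R, ‖qu y‖ ^ 2 ∂mW Γ G r0 R ≤ (1 + x) * ∫ y in DT d {(1 : Γ)} ∩ GW Γ G r0 1 R, ‖q y‖ ^ 2 ∂mW Γ G r0 R + (1 + 1 / x) * ∫ y in DT d {(1 : Γ)} ∩ GW Γ G r0 1 R, ‖qu y - q y‖ ^ 2 ∂mW Γ G r0 R := by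
      rw [← integral_const_mul, ← integral_const_mul, ← integral_add ((hint q hFBq).const_mul _) ((hint _ hw).const_mul _)]
      exact integral_mono (hint qu hFBu) (((hint q hFBq).const_mul _).add ((hint _ hw).const_mul _)) fun y => EG3_sq2 x hx0 (qu y) (q y)
    have hI2 : ∫ y in DT d {(1 : Γ)} ∩ GW Γ G r0 1 R, ‖qu y - q y‖ ^ 2 ∂mW Γ G r0 R ≤ 2 * R ^ (-1 : ℝ) * N := by
      refine le_trans ?_ hP1'
      exact setIntegral_mono_set (hO3 _ hw).2.1 (ae_of_all _ fun y => by positivity) (ae_of_all _ (inter_subset_left : DT d {(1 : Γ)} ∩ GW Γ G r0 1 R ⊆ DT d {(1 : Γ)}))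
    have hI3 : (1 - R ^ (-(1 / 5) : ℝ)) * Nu ≤ ∫ y in DT d {(1 : Γ)} ∩ GW Γ G r0 1 R, ‖qu y‖ ^ 2 ∂mW Γ G r0 R := by
      have := hu2
      rw [hofR qu hFBu] at this
      exact (ENNReal.ofReal_le_ofReal_iff (integral_nonneg fun y => by positivity)).1 this
    have hI4 : (1 - 2 * x) * N ≤ Nu := by
      haveI : IsFiniteMeasureOnCompacts (mv G) := ⟨fun S hS => (hAMVI d Γ K k B2 G hK hG2).2.2.2.2.1 S hS⟩
      have hi : ∀ g : V d → ℂ, Continuous g → Integrable (fun z => ‖g z‖ ^ 2) ((mv G).restrict F0) := by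
        intro g hg
        have h7 : IntegrableOn (fun z => ‖g z‖ ^ 2) K (mv G) := ((hg.norm.pow 2).continuousOn).integrableOn_compact hK.compact
        exact h7.mono_set hF0.sub
      have h8 : (1 - 2 * x) * N = ∫ z in F0, (1 - 2 * x) * ‖φ z‖ ^ 2 ∂mv G := by rw [integral_const_mul, hNdef, nn]
      rw [h8, hNudef, nn]
      refine integral_mono ((hi φ hFHφ.cont).const_mul _) (hi _ hFHu.cont) fun z => ?_
      have h9 := hpt z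
      have h10 : ‖φ z‖ ≤ ‖uE f' φ z‖ + ‖uE f' φ z - φ z‖ := by
        calc ‖φ z‖ = ‖uE f' φ z - (uE f' φ z - φ z)‖ := by ring_nf
          _ ≤ _ := norm_sub_le _ _
      have h11 : (1 - x) * ‖φ z‖ ≤ ‖uE f' φ z‖ := by nlinarith [norm_nonneg (φ z)]
      have h12 : ((1 - x) * ‖φ z‖) ^ 2 ≤ ‖uE f' φ z‖ ^ 2 := pow_le_pow_left₀ (mul_nonneg (by linarith) (norm_nonneg _)) h11 2
      show (1 - 2 * x) * ‖φ z‖ ^ 2 ≤ ‖uE f' φ z‖ ^ 2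
      nlinarith [sq_nonneg (x * ‖φ z‖)]
    have hI0 : 0 ≤ ∫ y in DT d {(1 : Γ)} ∩ GW Γ G r0 1 R, ‖q y‖ ^ 2 ∂mW Γ G r0 R := integral_nonneg fun y => by positivity
    rw [inter_comm, hofR q hFBq]
    refine ENNReal.ofReal_le_ofReal ?_
    set I := ∫ y in DT d {(1 : Γ)} ∩ GW Γ G r0 1 R, ‖q y‖ ^ 2 ∂mW Γ G r0 R with hI
    have hNu0 : 0 ≤ Nu := le_trans (mul_nonneg (by linarith) hN0) hI4
    have hI5 : (1 + 1 / x) * ∫ y in DT d {(1 : Γ)} ∩ GW Γ G r0 1 R, ‖qu y - q y‖ ^ 2 ∂mW Γ G r0 R ≤ 4 * x * N := by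
      have hp : 0 ≤ 1 + 1 / x := by positivity
      refine (mul_le_mul_of_nonneg_left hI2 hp).trans ?_
      have h13 : (1 + 1 / x) * (2 * R ^ (-1 : ℝ)) ≤ 4 * x := by
        have h14 : (1 + 1 / x) * (2 * R ^ (-1 : ℝ)) ≤ (1 + 1 / x) * (2 * (x * x)) := mul_le_mul_of_nonneg_left (by linarith) hp
        refine h14.trans ?_
        have : (1 + 1 / x) * (2 * (x * x)) = 2 * (x * x) + 2 * x := by
          field_simp
        rw [this]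
        nlinarith
      calc (1 + 1 / x) * (2 * R ^ (-1 : ℝ) * N) = (1 + 1 / x) * (2 * R ^ (-1 : ℝ)) * N := by ring
        _ ≤ 4 * x * N := mul_le_mul_of_nonneg_right h13 hN0
    have hI6 : (1 - x) * Nu ≤ (1 + x) * I + 4 * x * N := by
      have : (1 - x) * Nu ≤ (1 - R ^ (-(1 / 5) : ℝ)) * Nu := mul_le_mul_of_nonneg_right (by linarith) hNu0
      linarith
    have hI7 : (1 - 3 * x) * N ≤ (1 - x) * Nu := by
      have h15 : (1 - x) * ((1 - 2 * x) * N) ≤ (1 - x) * Nu := mul_le_mul_of_nonneg_left hI4 (by linarith)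
      nlinarith [mul_nonneg (mul_nonneg hx0.le hx0.le) hN0]
    have hI8 : (1 + x) * ((1 - 8 * x) * N) ≤ (1 + x) * I := by
      nlinarith [mul_nonneg (mul_nonneg hx0.le hx0.le) hN0]
    have hI9 : (1 - 8 * x) * N ≤ I := le_of_mul_le_mul_left hI8 (by linarith)
    refine le_trans (mul_le_mul_of_nonneg_right ?_ hN0) hI9
    linarith
  · -- the fixed vector
    intro T hT Ψ hΨ
    have e1 : ‖T Ψ - Ψ‖ ^ 2 = nY (mW Γ G r0 R) (DT d {(1 : Γ)}) (fun y => OY (mW Γ G r0 R) (KB G Φ r0 χ ch A R f) q y - q y) := (hZ q hKBZ hFBq).2.1 T Ψ hT hΨ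
    rw [e1]
    -- the function u
    have hmem : MemLp qu 2 ((mW Γ G r0 R).restrict (DT d {(1 : Γ)})) := (hO3 qu hFBu).2.2
    have e2 : nY (mW Γ G r0 R) (DT d {(1 : Γ)}) (fun y => OY (mW Γ G r0 R) (KB G Φ r0 χ ch A R f) qu y - qu y) ≤ R ^ (-(1 / 100) : ℝ) * Nu := by
      rw [← (hZ qu hKBZ hFBu).2.1 T hmem.toLp hT hmem.coeFn_toLp]
      exact hu3 T hT hmem.toLp hmem.coeFn_toLp
    -- the difference
    have hFPw : FP (⊤ : Subgroup Γ) {(1 : Γ)} (fun y => qu y - q y) := (hFB _).1 hw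
    have hKBW : ∀ y y' : YS Γ d, KB G Φ r0 χ ch A R f y y' ≠ 0 → y' ∈ GW Γ G r0 2 R := by
      intro y y' h
      refine (husn (A.n R) y y' ?_).2.2.1
      intro h'
      apply h
      show Complex.exp (-(((thP Φ f R (A.tu R) y.2 : ℝ) : ℂ) * Complex.I)) * usn G Φ r0 χ ch A R (A.n R) y y' = 0
      rw [h', mul_zero]
    have e3 : nY (mW Γ G r0 R) (DT d {(1 : Γ)}) (fun y => OY (mW Γ G r0 R) (KB G Φ r0 χ ch A R f) (fun y => qu y - q y) y) ≤ 4 * (2 * R ^ (-1 : ℝ) * N) := by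
      have e4 : (fun y => OY (mW Γ G r0 R) (KB G Φ r0 χ ch A R f) (fun y => qu y - q y) y) = Op (KB G Φ r0 χ ch A R f) (fun y => qu y - q y) := funext fun y => hOY _ _ y hKBW
      rw [e4, hnY]
      have e5 := hcon ⊤ F0 {1} _ (Or.inl ⟨rfl, hFD, rfl⟩) hFPw
      refine e5.trans ?_
      have e6 : (1 + R ^ (-(1 / 6) : ℝ)) ^ 2 ≤ 4 := by
        have e7 : R ^ (-(1 / 6) : ℝ) ≤ 1 := Real.rpow_le_one_of_one_le_of_nonpos hR1' (by norm_num)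
        have e8 : 0 ≤ R ^ (-(1 / 6) : ℝ) := by positivity
        nlinarith
      have e9 : 0 ≤ nP G r0 {(1 : Γ)} 2 R (fun y => qu y - q y) := by
        rw [← hnY]
        exact (hO3 _ hw).1
      calc (1 + R ^ (-(1 / 6) : ℝ)) ^ 2 * nP G r0 {(1 : Γ)} 2 R (fun y => qu y - q y) ≤ 4 * nP G r0 {(1 : Γ)} 2 R (fun y => qu y - q y) := mul_le_mul_of_nonneg_right e6 e9
        _ ≤ 4 * (2 * R ^ (-1 : ℝ) * N) := mul_le_mul_of_nonneg_left hP1 (by norm_num)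
    have e10 : ∀ y, OY (mW Γ G r0 R) (KB G Φ r0 χ ch A R f) q y - q y = (OY (mW Γ G r0 R) (KB G Φ r0 χ ch A R f) qu y - qu y) - OY (mW Γ G r0 R) (KB G Φ r0 χ ch A R f) (fun y => qu y - q y) y + (qu y - q y) := by
      intro y
      have e11 : OY (mW Γ G r0 R) (KB G Φ r0 χ ch A R f) (fun y => qu y - q y) y = OY (mW Γ G r0 R) (KB G Φ r0 χ ch A R f) qu y - OY (mW Γ G r0 R) (KB G Φ r0 χ ch A R f) q y := by
        unfold OY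
        rw [← integral_sub ((hO1 _ qu hKBZ hFBu).2.1 y) ((hO1 _ q hKBZ hFBq).2.1 y)]
        refine integral_congr_ae (ae_of_all _ fun z => ?_)
        show _ * (qu z - q z) = _
        ring
      rw [e11]
      ring
    have hFBo : ∀ v, FB Γ v → FB Γ (OY (mW Γ G r0 R) (KB G Φ r0 χ ch A R f) v) := fun v hv => (hO1 _ v hKBZ hv).1
    have hsub : ∀ v w : YS Γ d → ℂ, FB Γ v → FB Γ w → FB Γ (fun y => v y - w y) := by
      intro v w hv hw'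
      refine ⟨hv.meas.sub hw'.meas, ?_, fun γ y => by simp only [hv.inv, hw'.inv]⟩
      obtain ⟨b1, hb1⟩ := hv.bdd
      obtain ⟨b2, hb2⟩ := hw'.bdd
      exact ⟨b1 + b2, fun y => (norm_sub_le _ _).trans (add_le_add (hb1 y) (hb2 y))⟩
    have i1 := (hO3 _ (hsub _ _ (hFBo qu hFBu) hFBu)).2.1
    have i2 := (hO3 _ (hFBo _ hw)).2.1
    have i3 := (hO3 _ hw).2.1
    have i0 := (hO3 _ (hsub _ _ (hFBo q hFBq) hFBq)).2.1
    have e12 : nY (mW Γ G r0 R) (DT d {(1 : Γ)}) (fun y => OY (mW Γ G r0 R) (KB G Φ r0 χ ch A R f) q y - q y) ≤ 3 * (nY (mW Γ G r0 R) (DT d {(1 : Γ)}) (fun y => OY (mW Γ G r0 R) (KB G Φ r0 χ ch A R f) qu y - qu y) +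
        nY (mW Γ G r0 R) (DT d {(1 : Γ)}) (fun y => OY (mW Γ G r0 R) (KB G Φ r0 χ ch A R f) (fun y => qu y - q y) y) + nY (mW Γ G r0 R) (DT d {(1 : Γ)}) (fun y => qu y - q y)) := by
      refine le_trans ?_ (EG3_add ((mW Γ G r0 R).restrict (DT d {(1 : Γ)})) _ _ _ i1 i2 i3).ge
      refine integral_mono i0 (((i1.add i2).add i3).const_mul 3) fun y => ?_
      show ‖OY (mW Γ G r0 R) (KB G Φ r0 χ ch A R f) q y - q y‖ ^ 2 ≤ _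
      rw [e10 y]
      exact EG3_sq3 _ _ _
    refine e12.trans ?_
    have e13 : R ^ (-1 : ℝ) ≤ R ^ (-(1 / 100) : ℝ) := Real.rpow_le_rpow_of_exponent_le hR1' (by norm_num)
    have e14 : 36 * R ^ (-(1 / 100) : ℝ) ≤ R ^ (-(1 / 200) : ℝ) := by
      calc 36 * R ^ (-(1 / 100) : ℝ) ≤ R ^ (1 / 200 : ℝ) * R ^ (-(1 / 100) : ℝ) := mul_le_mul_of_nonneg_right h200 (by positivity)
        _ = R ^ (1 / 200 + -(1 / 100) : ℝ) := by rw [← Real.rpow_add hRpos]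
        _ = R ^ (-(1 / 200) : ℝ) := by norm_num
    have e15 : R ^ (-(1 / 100) : ℝ) * Nu ≤ R ^ (-(1 / 100) : ℝ) * (2 * N) := mul_le_mul_of_nonneg_left hN1 (by positivity)
    have e16 : R ^ (-1 : ℝ) * N ≤ R ^ (-(1 / 100) : ℝ) * N := mul_le_mul_of_nonneg_right e13 hN0
    have e17 : 36 * R ^ (-(1 / 100) : ℝ) * N ≤ R ^ (-(1 / 200) : ℝ) * N := mul_le_mul_of_nonneg_right e14 hN0
    nlinarith

end

end Pool.Agent.VD
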