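import Pool.Agent.helper55.VD.SpecE4
import Pool.Agent.helper74.VQ.SpecA

/-!
# Project VD (MP_07c750_an), block E, row `vd:EST`: the unit step in the abstract setting
-/

set_option autoImplicit false

open scoped ContDiff Topology InnerProductSpace ComplexConjugate ENNReal
open MeasureTheory Filter Set

namespace Pool.Agent.VD

open Pool.Agent.VQ (CH KZ PS perZ cmZ)
open Pool.Agent.RPQ (IsOp)
open Pool.Agent.VDA (STP FB FR FT nY OY OA)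

noncomputable section

/-- bounded kernels of finite range are kernels of finite range for the pseudo-distance of a length function -/
theorem EST_KZ {d : ℕ} {Γ : Type} [Group Γ] (L : Γ → ℕ) (K' : YS Γ d → YS Γ d → ℂ) (h : KY K') : KZ Γ (dYS L) K' := by
  refine ⟨h.meas, ?_, h.inv, ?_⟩
  · obtain ⟨b, hb⟩ := h.bdd
    exact ⟨b, hb⟩
  · obtain ⟨S, hS⟩ := h.range
    refine ⟨((S.sup L : ℕ) : ℝ), fun x y hxy => ?_⟩
    have h1 : L (x.1⁻¹ * y.1) ≤ S.sup L := Finset.le_sup (hS x y hxy)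
    unfold dYS
    exact_mod_cast h1

/-- the Schur bound in real form -/
theorem EST_sch (hVSH : Pool.Agent.VQ.VSH_stmt) (hEAO : Pool.Agent.VDA.EAO_stmt) (hEAZ : Pool.Agent.VDA.EAZ_stmt) (Γ : Type) [Group Γ] (Y : Type) [MeasurableSpace Y] [MulAction Γ Y] (m : Measure Y) (D : Set Y) (dd : Y → Y → ℝ)
    (hP : PS Γ Y m D dd) (K : Y → Y → ℂ) (hK : KZ Γ dd K) (a : ℝ) (ha : 0 ≤ a) (h1 : ∀ x, ∫⁻ y, ‖K x y‖ₑ ∂m ≤ ENNReal.ofReal a) (h2 : ∀ y, ∫⁻ x, ‖K x y‖ₑ ∂m ≤ ENNReal.ofReal a)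
    (v : Y → ℂ) (hv : FB Γ v) : ∫ y in D, OA m K v y ^ 2 ∂m ≤ a ^ 2 * nY m D v := by
  haveI := hP.cnt
  haveI := hP.sf
  obtain ⟨hO1, hO2, hO3, hO4⟩ := hEAO Γ Y m D dd hP
  obtain ⟨-, -, hint, hOAm, Bd, hBd⟩ := hO1 K v hK hv
  have hKm : Measurable (Function.uncurry fun x y => ‖K x y‖ₑ) := hK.meas.enorm
  have hs := (hVSH Γ Y Y m m D D hP.act hP.act hP.uniq hP.uniq hP.meas hP.meas (fun x y => ‖K x y‖ₑ) hKm (fun γ x y => by simp only [hK.inv])).2 (ENNReal.ofReal a) (ENNReal.ofReal a) (fun y => ‖v y‖ₑ) hv.meas.enorm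
    (fun γ y => by simp only [hv.inv]) h1 h2
  have hz := (hEAZ Γ Y m D dd hP K v hK hv).2.2
  have hn := (hO3 v hv).1
  have e1 : ∀ y, ENNReal.ofReal (OA m K v y) = ∫⁻ x, ‖K y x‖ₑ * ‖v x‖ₑ ∂m := by
    intro y
    unfold OA
    rw [ofReal_integral_eq_lintegral_ofReal (hint y) (ae_of_all _ fun x => by positivity)]
    refine lintegral_congr fun x => ?_
    rw [ENNReal.ofReal_mul (norm_nonneg _), ofReal_norm, ofReal_norm]
  have e2 : ∫ y in D, OA m K v y ^ 2 ∂m = (∫⁻ y in D, ENNReal.ofReal (OA m K v y ^ 2) ∂m).toReal :=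
    integral_eq_lintegral_of_nonneg_ae (ae_of_all _ fun y => sq_nonneg _) (hOAm.pow_const 2).aestronglyMeasurable
  rw [e2]
  have e3 : ∫⁻ y in D, ENNReal.ofReal (OA m K v y ^ 2) ∂m ≤ ENNReal.ofReal (a ^ 2 * nY m D v) := by
    calc ∫⁻ y in D, ENNReal.ofReal (OA m K v y ^ 2) ∂m = ∫⁻ y in D, (∫⁻ x, ‖K y x‖ₑ * ‖v x‖ₑ ∂m) ^ 2 ∂m := by
          refine lintegral_congr fun y => ?_
          rw [ENNReal.ofReal_pow (hBd y).1, e1]
      _ ≤ ENNReal.ofReal a * ENNReal.ofReal a * ∫⁻ y in D, ‖v y‖ₑ ^ 2 ∂m := hs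
      _ = ENNReal.ofReal (a ^ 2 * nY m D v) := by
          rw [hz, ← ENNReal.ofReal_mul ha, ← ENNReal.ofReal_mul (by positivity), sq]
  calc (∫⁻ y in D, ENNReal.ofReal (OA m K v y ^ 2) ∂m).toReal ≤ (ENNReal.ofReal (a ^ 2 * nY m D v)).toReal := ENNReal.toReal_mono ENNReal.ofReal_ne_top e3
    _ = a ^ 2 * nY m D v := ENNReal.toReal_ofReal (by positivity)

theorem EST_proof (hPSY : PSY_stmt) (hAUMD : AUMD_stmt) (hAUSD : AUSD_stmt) (hATSD : ATSD_stmt) (hAMVI : AMVI_stmt) (hEYP : EYP_stmt) (hVSH : Pool.Agent.VQ.VSH_stmt)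
    (hEAO : Pool.Agent.VDA.EAO_stmt) (hEAZ : Pool.Agent.VDA.EAZ_stmt) : EST_stmt := by
  intro d Γ _ _ K k B r0 χ hK hPU
  obtain ⟨C1, hC1, h1⟩ := hAUMD d Γ K k B r0 χ hK hPU
  obtain ⟨C2, hC2, h2⟩ := hAUSD d Γ K k B r0 χ hK hPU
  obtain ⟨C3, hC3, h3⟩ := hATSD d Γ K k B r0 χ hK hPU
  refine ⟨C1 + 200 * C2 + C3, by linarith, ?_⟩
  intro ch A hch hA
  have hA1 : Adm C1 A := EAM0 hA hC1 (by linarith)
  have hA2 : Adm C2 A := EAM0 hA hC2 (by linarith)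
  have hA3 : Adm C3 A := EAM0 hA hC3 (by linarith)
  have hA4 : Adm (200 * C2) A := EAM0 hA (by linarith) (by linarith)
  obtain ⟨R1, hR1, h1⟩ := h1 ch A hch hA1
  obtain ⟨R2, hR2, h2⟩ := h2 ch A hch hA2
  obtain ⟨R3, hR3, h3⟩ := h3 ch A hch hA3
  refine ⟨R1 + R2 + R3, by linarith, ?_⟩
  intro R F G Φ L hR hF hOK hL
  have hRpos : 1 ≤ R := by linarith
  obtain ⟨hus, husn, hus0, -, -, -, -⟩ := h1 R G Φ (by linarith) hOK
  obtain ⟨-, hrow, hcol⟩ := h2 R G Φ (by linarith) hOK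
  have hstep := h3 R G Φ (by linarith) hOK
  haveI hcnt : Countable Γ := (hAMVI d Γ K k B G hK hOK.cls).1
  obtain ⟨hWm, hGm, hsf, -, -, -, hWf⟩ := hEYP d Γ G r0 2 R hOK.cls.met
  obtain ⟨hP, -⟩ := hPSY d Γ (WP G r0 2 R) L hcnt hWm hWf hL.one hL.inv hL.mul hL.fin
  have hmW : mW Γ G r0 R = mWW Γ (WP G r0 2 R) := rfl
  rw [← hmW] at hP
  have hcmp : ∀ (K' : YS Γ d → YS Γ d → ℂ) (w : YS Γ d → ℂ) (y : YS Γ d), (∀ y', K' y y' ≠ 0 → y' ∈ GW Γ G r0 2 R) → ∫ x, K' y x * w x ∂mW Γ G r0 R = ∫ x, K' y x * w x ∂mY Γ d := by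
    intro K' w y hK'
    unfold mW
    refine setIntegral_eq_integral_of_forall_compl_eq_zero fun x hx => ?_
    have : K' y x = 0 := by
      by_contra h
      exact hx (hK' x h)
    rw [this, zero_mul]
  have husW : ∀ y y' : YS Γ d, us G Φ r0 χ ch A R y y' ≠ 0 → y' ∈ GW Γ G r0 2 R := fun y y' h => (hus0 y y' h).1.2.1
  have hnY : ∀ v : YS Γ d → ℂ, nY (mW Γ G r0 R) (DT d {(1 : Γ)}) v = nP G r0 {(1 : Γ)} 2 R v := by
    intro v
    unfold nY nP mW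
    rw [Measure.restrict_restrict hP.meas]
  have hFB : ∀ v : YS Γ d → ℂ, FB Γ v ↔ FP (⊤ : Subgroup Γ) {(1 : Γ)} v := by
    intro v
    constructor
    · intro h
      exact ⟨h.meas, h.bdd, fun γ _ y => h.inv γ y, {1}, fun y hy _ => by simpa using hy⟩
    · intro h
      exact ⟨h.meas, h.bdd, fun γ y => h.inv γ (Subgroup.mem_top γ) y⟩
  have hOY : ∀ (K' : YS Γ d → YS Γ d → ℂ) (v : YS Γ d → ℂ) (y : YS Γ d), (∀ y y', K' y y' ≠ 0 → y' ∈ GW Γ G r0 2 R) → OY (mW Γ G r0 R) K' v y = Op K' v y := by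
    intro K' v y hK'
    exact hcmp K' v y (hK' y)
  refine ⟨hP, ⟨EST_KZ L _ hus, by positivity, by positivity, ?_, ?_⟩, fun K' hK' => EST_KZ L K' hK', ?_, hOY, hnY, hFB⟩
  · intro v hv
    have hv' := (hFB v).1 hv
    have := (hstep ⊤ F {1} v (Or.inl ⟨rfl, hF, rfl⟩) hv').2.1
    have e : OY (mW Γ G r0 R) (us G Φ r0 χ ch A R) v = Op (us G Φ r0 χ ch A R) v := funext fun y => hOY _ v y husW
    rw [hnY, hnY, e]
    exact this
  · intro v hv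
    have ha0 : 0 ≤ R ^ (C2 * A.z2) := by positivity
    have hle : ∀ f : YS Γ d → ENNReal, ∫⁻ y, f y ∂mW Γ G r0 R ≤ ∫⁻ y, f y ∂mY Γ d := fun f => lintegral_mono' Measure.restrict_le_self le_rfl
    have hs := EST_sch hVSH hEAO hEAZ Γ (YS Γ d) (mW Γ G r0 R) (DT d {1}) (dYS L) hP _ (EST_KZ L _ hus) (R ^ (C2 * A.z2)) ha0 (fun y => (hle _).trans (hrow y).1) (fun y => (hle _).trans (hcol y).1) v hv
    have hn : 0 ≤ nY (mW Γ G r0 R) (DT d {(1 : Γ)}) v := ((hEAO Γ (YS Γ d) (mW Γ G r0 R) (DT d {1}) (dYS L) hP).2.2.1 v hv).1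
    refine hs.trans ?_
    have hexp : R ^ (C2 * A.z2) ≤ R ^ (1 / 200 : ℝ) := by
      refine Real.rpow_le_rpow_of_exponent_le hRpos ?_
      have := hA4.up
      linarith
    have hsq : (R ^ (C2 * A.z2)) ^ 2 ≤ (R ^ (1 / 200 : ℝ)) ^ 2 := pow_le_pow_left₀ ha0 hexp 2
    exact mul_le_mul_of_nonneg_right hsq hn
  · intro n
    funext y y'
    show cmZ (mY Γ d) (us G Φ r0 χ ch A R) (usn G Φ r0 χ ch A R n) y y' = cmZ (mW Γ G r0 R) (us G Φ r0 χ ch A R) (usn G Φ r0 χ ch A R n) y y'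
    unfold cmZ
    exact (hcmp (us G Φ r0 χ ch A R) (fun p => usn G Φ r0 χ ch A R n p y') y (fun y'' h => husW y y'' h)).symm

end

end Pool.Agent.VD
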