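import Pool.Agent.helper80.VD.Defs

/-!
# Project VD (MP_07c750_an, quantum unique ergodicity in every dimension), block E, part 1: rows `vd:EHX` (conformal change of the Laplacian, Green's formula)

RULES. Row `vd:XXX`: file `Pool/Agent/<seat>/VD/XXX.lean`, `import Pool.Agent.helper55.VD.SpecE1`, `set_option autoImplicit false`, namespace `Pool.Agent.VD`, the `open` lines of this file, theorem `XXX_proof (h..) : XXX_stmt` (all other rows may be hypotheses `(h : YYY_stmt)`, no circles),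
auxiliary lemmas prefixed `XXX_`. No `convert`, `congr!`, `native_decide`, no double quotes, no `private`, no commands starting with a sharp sign.
-/

set_option autoImplicit false

open scoped ContDiff Topology InnerProductSpace ComplexConjugate
open MeasureTheory Filter Set

namespace Pool.Agent.VD

noncomputable section

/-- **Row EHD** (conformal metrics; short-medium; pure). `G x` is injective (positive), so invertible (finite dimension): `G x` is a unit of `V d →L V d`, `contDiffAt_ringInverse` / `ContinuousLinearMap.inverse` (`contDiffAt_map_inverse`). Symmetric: `⟪(G x).inverse u, v⟫ = ⟪(G x).inverse u, G x ((G x).inverse v)⟫`.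
Determinant: `(G x).det = LinearMap.det`, positive: `LinearMap.IsPositive` / eigenvalues (`LinearMap.IsSymmetric.det_eq_prod_eigenvalues`) or: `det` is not `0` on the segment from `1` to `G x` (convex combination of positive operators), connectedness; smooth: the matrix of `G x` in the standard basis is smooth, `det` is a polynomial.
`det (c • A) = c^d det A`, `√(e^(d f)) = e^(d f/2)`; `(c • A).inverse = c⁻¹ • A.inverse`. -/
def EHD_stmt : Prop := ∀ (d : ℕ) (G : V d → V d →L[ℝ] V d), IsMetric G →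
  (∀ x, 0 < (G x).det ∧ 0 < dens G x) ∧ ContDiff ℝ ∞ (dens G) ∧ ContDiff ℝ ∞ (fun x => (G x).inverse) ∧ (∀ x u, G x ((G x).inverse u) = u ∧ (G x).inverse (G x u) = u) ∧
  (∀ x u v, ⟪(G x).inverse u, v⟫_ℝ = ⟪u, (G x).inverse v⟫_ℝ) ∧ (∀ x u, u ≠ 0 → 0 < ⟪(G x).inverse u, u⟫_ℝ) ∧
  ∀ f : V d → ℝ, ContDiff ℝ ∞ f → IsMetric (fun x => Real.exp (f x) • G x) ∧ ∀ x, dens (fun x => Real.exp (f x) • G x) x = Real.exp ((d : ℝ) / 2 * f x) * dens G x ∧
    (Real.exp (f x) • G x).inverse = Real.exp (-(f x)) • (G x).inverse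

/-- **Row EHL** (CONFORMAL CHANGE; medium; from EHD). `ρ = dens G`, `w = e^((d-2) f/4)`, so `dens (e^f G) e^(-f) = w² ρ`: `lap (e^f G) φ = e^(-d f/2) ρ⁻¹ Σ ∂_i (w² ρ g^(ij) ∂_j φ)` (`∂_j φ g^(ij) = fderiv φ ((G y).inverse e_i)`). `ρ g^(ij) ∂_j (w φ) = w⁻¹ (w² ρ g^(ij) ∂_j φ) + φ ρ g^(ij) ∂_j w`, so
`Σ ∂_i (ρ g^(ij) ∂_j (w φ)) = w⁻¹ Σ ∂_i (w² ρ g^(ij) ∂_j φ) - Σ ∂_i w ρ g^(ij) ∂_j φ + Σ ∂_i φ ρ g^(ij) ∂_j w + φ Σ ∂_i (ρ g^(ij) ∂_j w)`; the two middle terms cancel: `Σ_i ∂_i w · fderiv φ (g⁻¹ e_i) = fderiv φ (g⁻¹ ∇w)` and `⟪∇φ, g⁻¹ ∇w⟫` is symmetric (real and imaginary part of `φ`). `w⁻¹ e^(d f/2) = w e^f`. -/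
def EHL_stmt : Prop := ∀ (d : ℕ) (G : V d → V d →L[ℝ] V d) (f : V d → ℝ) (φ : V d → ℂ), IsMetric G → ContDiff ℝ ∞ f → ContDiff ℝ 2 φ → ∀ x,
  lap G (fun y => ((Real.exp (((d : ℝ) - 2) / 4 * f y) : ℝ) : ℂ) * φ y) x =
    ((Real.exp (((d : ℝ) - 2) / 4 * f x + f x) : ℝ) : ℂ) * lap (fun y => Real.exp (f y) • G y) φ x +
      φ x * lap G (fun y => ((Real.exp (((d : ℝ) - 2) / 4 * f y) : ℝ) : ℂ)) x

/-- **Row EHG** (GREEN; short-medium; from EHD). `ψ` has compact support. `∫ (∂_i F) ψ dx = - ∫ F ∂_i ψ dx` for `F` of class `C¹` and `ψ` of class `C¹` with compact support (`integral_mul_fderiv_eq_neg_fderiv_mul_of_integrable` or `integral_bilinear_hasLineDerivAt_right_eq_neg_left_of_integrable`; everything is continuous with compact support).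
So `∫ (lap G φ) ψ ρ = - Σ_i ∫ ρ fderiv φ (g⁻¹ e_i) ∂_i ψ = - ∫ ρ ⟪∇φ, g⁻¹ ∇ψ⟫`, symmetric in `φ`, `ψ` (bilinear, complex valued). -/
def EHG_stmt : Prop := ∀ (d : ℕ) (G : V d → V d →L[ℝ] V d) (φ ψ : V d → ℂ), IsMetric G → ContDiff ℝ 2 φ → ContDiff ℝ 2 ψ → HasCompactSupport ψ →
  ∫ x, lap G φ x * ψ x * ((dens G x : ℝ) : ℂ) = ∫ x, φ x * lap G ψ x * ((dens G x : ℝ) : ℂ)

/-- **Row EHC** (the Laplacian is continuous, linear and real; short; from EHD). `lap G φ` for `φ` of class `C²`: the inner functions are `C¹`. `lap G (conj φ) = conj (lap G φ)` (`fderiv` of `conj ∘ φ`: conj is a real linear isometry, `ContinuousLinearEquiv.comp_fderiv`). -/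
def EHC_stmt : Prop := ∀ (d : ℕ) (G : V d → V d →L[ℝ] V d), IsMetric G → (∀ φ : V d → ℂ, ContDiff ℝ 2 φ → Continuous (lap G φ) ∧ (∀ x, lap G (fun y => conj (φ y)) x = conj (lap G φ x)) ∧ ∀ (c : ℂ) (x : V d), lap G (fun y => c * φ y) x = c * lap G φ x) ∧
  ∀ φ ψ : V d → ℂ, ContDiff ℝ 2 φ → ContDiff ℝ 2 ψ → ∀ x, lap G (fun y => φ y + ψ y) x = lap G φ x + lap G ψ x

/-- **Row EHI** (the Laplacian is invariant under isometries; medium; from EHD, EHG or by direct computation). `γ` is a diffeomorphism of `V d` with `G (γ x) (Dγ u) · Dγ v = G x u · v`, so `g⁻¹(γ x) = Dγ g⁻¹(x) (Dγ)ᵀ`, `ρ(γ x) |det Dγ(x)| = ρ(x)`. WEAK PROOF (no second derivatives of `γ`): for every test function `ψ` (smooth, compact support)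
`∫ (lap G (φ∘γ)) ψ ρ = - ∫ ρ ⟪∇(φ∘γ), g⁻¹ ∇ψ⟫` (proof of EHG) `= - ∫ ρ (⟪∇φ, g⁻¹ ∇(ψ∘γ⁻¹)⟫)` (substitution `y = γ x`, `integral_image_eq_integral_abs_det_fderiv_smul`) `= ∫ (lap G φ) (ψ∘γ⁻¹) ρ = ∫ (lap G φ)∘γ ψ ρ` (substitution). Both sides are continuous, so they are equal (take `ψ` a bump function). -/
def EHI_stmt : Prop := ∀ (d : ℕ) (Γ : Type) [Group Γ] [MulAction Γ (V d)] (G : V d → V d →L[ℝ] V d) (φ : V d → ℂ), IsMetric G → (∀ γ : Γ, ContDiff ℝ ∞ fun x : V d => γ • x) →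
  (∀ (γ : Γ) (x u v : V d), ⟪G (γ • x) (fderiv ℝ (fun y : V d => γ • y) x u), fderiv ℝ (fun y : V d => γ • y) x v⟫_ℝ = ⟪G x u, v⟫_ℝ) → ContDiff ℝ 2 φ →
    ∀ (γ : Γ) (x : V d), lap G (fun y => φ (γ • y)) x = lap G φ (γ • x)

end

end Pool.Agent.VD
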