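import Pool.Agent.helper55.VD.SpecE4
import Pool.Agent.helper11.VD.Spec3d

/-!
# Project VD (MP_07c750_an, quantum unique ergodicity in every dimension), block E, part 5: THE INTERFACES (I3), (I8), rows `vd:EG0`, `vd:EG3`, `vd:EG8`

RULES: as in SpecE3. Row `vd:XXX`: file `Pool/Agent/<seat>/VD/XXX.lean`, `import Pool.Agent.helper55.VD.SpecE5`.
The interfaces of helper11 (Spec3d) are stated for the eigenfunction `φ` itself; the rows of block E are proved for `u = uE f' φ = e^((d-2) f'/4) φ`, which is `R^(-99/100)`-close to `φ` in every norm.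
-/

set_option autoImplicit false

open scoped ContDiff Topology InnerProductSpace ComplexConjugate ENNReal
open MeasureTheory Filter Set

namespace Pool.Agent.VD

open Pool.Agent.VQ (CH KZ PS perZ cmZ)
open Pool.Agent.RPQ (IsOp)
open Pool.Agent.VDA (STP FB FR FT nY OY OA)
open Pool.Agent.VDE (FDX)

noncomputable section

/-- **Row EG0** (from `φ` to `u`; short-medium; from AQAD, AQSD, ADMD, EHD). `B'' m n = max (B m n) (B' m n)` (`Cls.lo`: `⟪G x u, u⟫ ≥ 0`; `Cls.bd`; the other fields do not contain `B`). `FD Γ F0` from `FDX`. `EgT`: `Sm` and `SmS` have the same fields; `‖D^n f'‖ ≤ B' m n (R^(1/100)/R) ≤ B' m n` (`B' m n ≥ 0` because the left side is; `R^(1/100)/R ≤ 1`); `cfm f' G = fun x => exp (f' x) • G x` (`rfl`).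
`φ` is continuous and invariant (`Eigenfunction`), `F0` is bounded: `FH`. `|u - φ| = |e^((d-2) f'/4) - 1| |φ| ≤ d R^(-99/100) |φ|` (`|f'| ≤ R^(1/100)/R`), so `nn (u - φ) ≤ d² R^(-198/100) nn φ ≤ R⁻¹ nn φ`. `QF u - QF φ = QF (u - φ)` (the integrands are continuous with compact support, AQSD), AQAD first part. -/
def EG0_stmt : Prop := ∀ (d : ℕ) (Γ : Type) [Group Γ] [MulAction Γ (V d)] (K F0 : Set (V d)) (r0 : ℝ) (χ : V d → ℝ) (ch : ℝ → ℝ) (k : ℝ) (B B' : ℕ → ℕ → ℝ), 2 ≤ d → FdK Γ K → FDX Γ K F0 → PU Γ r0 χ → CH ch → FD Γ F0 ∧ ∃ B'' : ℕ → ℕ → ℝ, (∀ G : V d → V d →L[ℝ] V d, Cls Γ K k B G → Cls Γ K k B'' G) ∧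
  ∀ ζ : ℝ, 0 < ζ → ζ ≤ 1 / 8 → ∃ R0 : ℝ, 1 ≤ R0 ∧ ∀ (R : ℝ) (G : V d → V d →L[ℝ] V d) (f f' : V d → ℝ) (μ : ℝ) (φ : V d → ℂ), R0 ≤ R → Cls Γ K k B G → EgD Γ B' R G f f' μ φ →
    EgT Γ B'' G R f f' μ φ ∧ FH (⊤ : Subgroup Γ) F0 φ ∧ FH (⊤ : Subgroup Γ) F0 (uE f' φ) ∧ (∀ z, ‖uE f' φ z - φ z‖ ≤ R ^ (-(1 / 2) : ℝ) * ‖φ z‖) ∧ nn G F0 (uE f' φ) ≤ 2 * nn G F0 φ ∧ nn G F0 φ ≤ 2 * nn G F0 (uE f' φ) ∧ nn G F0 (fun z => uE f' φ z - φ z) ≤ R ^ (-1 : ℝ) * nn G F0 φ ∧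
    FP (⊤ : Subgroup Γ) {(1 : Γ)} (QF G χ ch ζ R φ) ∧ FP (⊤ : Subgroup Γ) {(1 : Γ)} (QF G χ ch ζ R (uE f' φ)) ∧ nP G r0 {(1 : Γ)} 2 R (fun y => QF G χ ch ζ R (uE f' φ) y - QF G χ ch ζ R φ y) ≤ 2 * R ^ (-1 : ℝ) * nn G F0 φ ∧
    nP G r0 {(1 : Γ)} 2 R (QF G χ ch ζ R φ) ≤ (1 + R ^ (-(1 / 4) : ℝ)) * nn G F0 φ

/-- **Row EG3** (final row (I3); short-medium; from EF3, EG0, EE1, EST, EAZ, ATND, LEN, CTD, AMVI, ADMD). `Ap` for `u` from EE1 (with `B''`). Upper bound: EG0 (`nP` of `QF φ`). Lower bound: `√(mass of QF φ in GW 1) ≥ √(mass of QF u in GW 1) - √(mass of QF u - QF φ) ≥ (1 - 2 R^(-1/5) - 3 R^(-1/2)) √(nn φ)`, `δ = 1/200`.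
Fixed vector: `‖T Ψ - Ψ‖² = nY (OY KB (QF φ) - QF φ)` (EAZ for `v = QF φ`; a length function from LEN, `Γ` countable: CTD or AMVI; `PS`: EST) `≤ 3 nY (OY KB (QF u) - QF u) + 3 nY (OY KB (QF φ - QF u)) + 3 nY (QF φ - QF u)`: EF3 (or its proof: EAZ for `v = QF u`: `‖T Ψ' - Ψ'‖² = nY (..)`), ATND (contraction for `FP` functions), EG0: `≤ 3 R^(-1/100) 2 nn φ + 20 R^(-1) nn φ ≤ R^(-1/200) nn φ`.
`2 ≤ d` is not needed. The order of the intersection `GW ∩ DT` is exchanged. -/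
def EG3_stmt : Prop := I3D_stmt

/-- **Row EG8** (final row (I8); short-medium; from EF8, EG0, EE1, ADMD). `0 ≤ avP h ≤ 1` (`0 ≤ h ≤ 1`, `tu R > 0`). `|∫ avP |QF φ|² - ∫ avP |QF u|²| ≤ √nP(QF φ - QF u) (√nP(QF φ) + √nP(QF u)) ≤ 6 R^(-1/2) nn φ` (Cauchy-Schwarz, `||a|² - |b|²| ≤ |a - b| (|a| + |b|)`; EG0), `|∫ h |φ|² - ∫ h |u|²| ≤ 3 R^(-1/2) nn φ` (EG0, pointwise), EF8 for `u` with `B''`:
`≤ R^(-1/400) 2 nn φ`. `δ = 1/500`. -/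
def EG8_stmt : Prop := I8D_stmt

end

end Pool.Agent.VD
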