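import Pool.Agent.helper55.VD.AllEA
import Pool.Agent.helper55.VD.SpecE5
import Pool.Agent.helper40.VD.EHD
import Pool.Agent.helper3.VD.EHL
import Pool.Agent.helper25.VD.EHG
import Pool.Agent.helper95.VD.EHC
import Pool.Agent.helper96.VD.EHI
import Pool.Agent.helper96.VD.EHB
import Pool.Agent.helper8.VD.EPK
import Pool.Agent.helper98.VD.EYP
import Pool.Agent.helper66.VD.EE2
import Pool.Agent.helper23.VD.EEG
import Pool.Agent.helper67.VD.EEH
import Pool.Agent.helper87.VD.EEY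
import Pool.Agent.helper23.VD.EEA
import Pool.Agent.helper32.VD.EED
import Pool.Agent.helper49.VD.EES
import Pool.Agent.helper43.VD.EET
import Pool.Agent.helper66.VD.EO1
import Pool.Agent.helper55.VD.EST
import Pool.Agent.helper38.VD.EF3
import Pool.Agent.helper98.VD.EF8
import Pool.Agent.helper98.VD.EFM
import Pool.Agent.helper32.VD.EG0
import Pool.Agent.helper55.VD.EG3
import Pool.Agent.helper23.VD.EG8
import Pool.Agent.helper23.VD.PSY
import Pool.Agent.helper87.VD.LEN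
import Pool.Agent.helper34.VD.CTD
import Pool.Agent.helper73.VQ.VSH

/-!
# Project VD (MP_07c750_an), block E: ASSEMBLY, the interfaces (I3) and (I8) from the rows of block A
-/

set_option autoImplicit false

namespace Pool.Agent.VD

/-- the rows of block A which are used by block E -/
structure HypE : Prop where
  AMVI : AMVI_stmt
  ALFX : ALFX_stmt
  ASGF : ASGF_stmt
  ACNF : ACNF_stmt
  ADMD : ADMD_stmt
  AQSD : AQSD_stmt
  AISD : AISD_stmt
  AQAD : AQAD_stmt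
  AELD : AELD_stmt
  ABMR : ABMR_stmt
  AFRD : AFRD_stmt
  AFBD : AFBD_stmt
  AFMD : AFMD_stmt
  ASAD : ASAD_stmt
  AUMD : AUMD_stmt
  AUSD : AUSD_stmt
  ATSD : ATSD_stmt
  ATND : ATND_stmt

theorem E_EHD : EHD_stmt := EHD_proof
theorem E_EHL : EHL_stmt := EHL_proof E_EHD
theorem E_EHG : EHG_stmt := EHG_proof E_EHD
theorem E_EHC : EHC_stmt := EHC_proof E_EHD
theorem E_EHI : EHI_stmt := EHI_proof E_EHD E_EHC
theorem E_EHB : EHB_stmt := EHB_proof E_EHD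
theorem E_EPK : EPK_stmt := EPK_proof
theorem E_EYP : EYP_stmt := EYP_proof E_EHD

section

variable (h : HypE) (hEE1 : EE1_stmt) (hEEF : EEF_stmt)

include h

theorem E_EE2 : EE2_stmt := EE2_proof h.AMVI h.ADMD h.AQSD h.AISD h.AQAD h.AELD
theorem E_EEG : EEG_stmt := EEG_proof h.ACNF h.ASGF h.ALFX
theorem E_EEH : EEH_stmt := EEH_proof (E_EEG h) h.ACNF h.ALFX
theorem E_EEY : EEY_stmt := EEY_proof (E_EEH h)
theorem E_EED : EED_stmt := EED_proof h.ABMR h.ACNF h.AMVI E_EHG E_EHC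
theorem E_EST : EST_stmt := EST_proof PSY_proof h.AUMD h.AUSD h.ATSD h.AMVI E_EYP Pool.Agent.VQ.VSH_proof VDA.A_EAO VDA.A_EAZ
theorem E_EG0 : EG0_stmt := EG0_proof h.AQAD h.AQSD h.AMVI

include hEEF

theorem E_EET : EET_stmt := EET_proof VDA.A_EAX (E_EED h) hEEF E_EYP h.ASAD h.AFBD h.AFMD h.AFRD h.AMVI
theorem E_EES : EES_stmt := EES_proof (E_EET h hEEF) hEEF (E_EE2 h) h.ASAD h.AFRD h.AFMD h.AMVI E_EYP
theorem E_EEA : EEA_stmt := EEA_proof (E_EEH h) (E_EES h hEEF) E_EYP (E_EE2 h)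
theorem E_EO1 : EO1_stmt := EO1_proof h.AMVI E_EYP h.AQSD h.AFMD h.AFRD h.ASAD h.AUMD h.ATSD (E_EE2 h) (E_EET h hEEF) (E_EEY h)
theorem E_EF3 : EF3_stmt := EF3_proof (E_EST h) VDA.A_EAM VDA.A_EAZ (E_EO1 h hEEF) (E_EE2 h) (E_EEY h) h.AUMD h.ATND LEN_proof h.AMVI h.ADMD
theorem E_EF8 : EF8_stmt := EF8_proof CTD_proof LEN_proof (E_EST h) VDA.A_EAT (E_EEA h hEEF) (E_EO1 h hEEF) (E_EE2 h) (E_EEY h) h.AUMD

include hEE1

theorem E_I3D : I3D_stmt := EG3_proof (E_EF3 h hEEF) (E_EG0 h) hEE1 (E_EST h) VDA.A_EAO VDA.A_EAZ h.ATND h.AUMD LEN_proof h.AMVI E_EYP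
theorem E_I8D : I8D_stmt := EG8_proof (E_EF8 h hEEF) (E_EG0 h) hEE1 h.ADMD h.AMVI

end

end Pool.Agent.VD
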