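import Pool.Agent.helper55.VD.AllE
import Pool.Agent.helper77.VD.EE1
import Pool.Agent.helper30.VD.EEF

/-!
# Project VD (MP_07c750_an), block E: ASSEMBLY without open rows
-/

set_option autoImplicit false

namespace Pool.Agent.VD

theorem E_EE1 : EE1_stmt := EE1_proof E_EHL E_EHC E_EHI E_EHB

theorem E_EEF (h : HypE) : EEF_stmt := EEF_proof E_EPK h.AFMD h.AFBD h.AFRD h.ACNF h.AMVI

theorem EE_I3D (h : HypE) : I3D_stmt := E_I3D h E_EE1 (E_EEF h)

theorem EE_I8D (h : HypE) : I8D_stmt := E_I8D h E_EE1 (E_EEF h)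

end Pool.Agent.VD
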