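import Pool.Agent.helper78.VD.EAO
import Pool.Agent.helper57.VD.EAC
import Pool.Agent.helper3.VD.EAM
import Pool.Agent.helper67.VD.EAV
import Pool.Agent.helper23.VD.EAT
import Pool.Agent.helper48.VD.EAX
import Pool.Agent.helper22.VD.EAZ
import Pool.Agent.helper23.VQ.KPZ
import Pool.Agent.helper55.VD.EAI

/-!
# Project VD (MP_07c750), block E, part 0: the abstract rows together
-/

set_option autoImplicit false

namespace Pool.Agent.VDA

theorem A_EAO : EAO_stmt := EAO_proof
theorem A_EAC : EAC_stmt := EAC_proof EAO_proof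
theorem A_EAM : EAM_stmt := EAM_proof EAO_proof A_EAC
theorem A_EAI : EAI_stmt := EAI_proof
theorem A_EAV : EAV_stmt := EAV_proof EAI_proof EAO_proof A_EAC
theorem A_EAT : EAT_stmt := EAT_proof A_EAV EAO_proof
theorem A_EAX : EAX_stmt := EAX_proof
theorem A_EAZ : EAZ_stmt := EAZ_proof Pool.Agent.VQ.KPZ_proof

end Pool.Agent.VDA
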