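import Pool.Agent.helper74.VD.Defs

/-!
# Project VD (MP_07c750_an, quantum unique ergodicity in every dimension), block E, part 2: pure rows `vd:EPK`, `vd:EHB`

RULES. Row `vd:XXX`: file `Pool/Agent/<seat>/VD/XXX.lean`, `import Pool.Agent.helper55.VD.SpecE2`, `set_option autoImplicit false`, namespace `Pool.Agent.VD`, the `open` lines of this file, theorem `XXX_proof (h..) : XXX_stmt` (all other rows may be hypotheses `(h : YYY_stmt)`, no circles),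
auxiliary lemmas prefixed `XXX_`. No `convert`, `congr!`, `native_decide`, no double quotes, no `private`, no commands starting with a sharp sign.
-/

set_option autoImplicit false

open scoped ContDiff Topology InnerProductSpace ComplexConjugate
open MeasureTheory Filter Set

namespace Pool.Agent.VD

open Pool.Agent.VQ (CH KZ PS perZ cmZ)

noncomputable section

/-- **Row EPK** (FREEZING A SMOOTH FUNCTION INSIDE A PACKET; medium; PURE; `C = 2^(K+1)`). Profile `A' v = (g (q.1 + v) - g q.1) A v`. Support: the one of `A` (`‖v‖ ≤ R^(-1/2+η) ≤ R^(-1/4) ≤ 1`). Derivatives: outside the closed ball of radius `R^(-1/2+η)` the product vanishes locally; in the closed ball Leibniz (`norm_iteratedFDeriv_mul_le`; the real function is composed with `Complex.ofRealCLM`,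
`ContinuousLinearMap.iteratedFDeriv_comp_left`, norm `≤ 1`; translation: `iteratedFDeriv_comp_add_left`): `‖D^j (g (q.1 + ·) - g q.1)‖ ≤ L` for `1 ≤ j ≤ K`, and `|g (q.1 + v) - g q.1| ≤ L ‖v‖ ≤ L R^(-1/2+η)` (mean value inequality on the segment, derivative of order 1).
Terms: `j = 0`: `L R^(-1/2+η) m ρ^k` with `ρ = R^(1/2+η)`; `j ≥ 1`: `L m ρ^(k-j) = L m ρ^k ρ^(-j) ≤ L m ρ^k ρ⁻¹ ≤ L m ρ^k R^(-1/2+η)` (`ρ ≥ 1`). Sum of the binomial coefficients `2^k`. Second part: the same with `g` (`|g| ≤ L`). -/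
def EPK_stmt : Prop := ∀ (d K : ℕ), ∃ C : ℝ, 1 ≤ C ∧ ∀ (η m R L : ℝ) (q : P d) (f : V d → ℂ) (g : V d → ℝ), 0 < η → η ≤ 1 / 4 → 1 ≤ R → 0 ≤ m → 0 ≤ L → Pk K η m R q f → ContDiff ℝ ∞ g →
  (∀ n ≤ K + 1, ∀ x : V d, ‖x - q.1‖ ≤ 1 → ‖iteratedFDeriv ℝ n g x‖ ≤ L) →
    Pk K η (C * L * R ^ (-(1 / 2) + η) * m) R q (fun w => ((g w - g q.1 : ℝ) : ℂ) * f w) ∧ Pk K η (C * L * m) R q (fun w => ((g w : ℝ) : ℂ) * f w)

/-- **Row EHB** (a bound for the Laplacian; medium; PURE; from EHD). `lap G w x = Σ_i [ρ⁻¹ ∂_i ρ Dw (g⁻¹ e_i) + D²w (e_i, g⁻¹ e_i) + Dw (∂_i(g⁻¹) e_i)]` at `x` (product and chain rule; `ρ = dens G`). `‖g⁻¹(x)‖ ≤ b` (from `‖u‖² ≤ b ⟪G x u, u⟫ ≤ b ‖G x u‖ ‖u‖`), `∂_i (g⁻¹) = - g⁻¹ (∂_i G) g⁻¹`, norm `≤ b³`.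
`ρ = s ∘ G` with `s A = √(det A)`, smooth on `{det ≠ 0}`; the set `{A | ‖A‖ ≤ b, ∀ u, ‖u‖² ≤ b ⟪A u, u⟫}` is compact and `det` does not vanish on it, so `|s|⁻¹` and `‖Ds‖` are bounded there by a constant `C(b, d)`: `|ρ⁻¹ ∂_i ρ| ≤ C² b`. (The same argument also works for the inverse.) -/
def EHB_stmt : Prop := ∀ (d : ℕ) (b : ℝ), ∃ C : ℝ, 1 ≤ C ∧ ∀ (G : V d → V d →L[ℝ] V d) (w : V d → ℂ) (x : V d) (b' : ℝ), IsMetric G → ContDiff ℝ 2 w → (∀ u, ‖u‖ ^ 2 ≤ b * ⟪G x u, u⟫_ℝ) → ‖G x‖ ≤ b → ‖fderiv ℝ G x‖ ≤ b →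
  ‖fderiv ℝ w x‖ ≤ b' → ‖iteratedFDeriv ℝ 2 w x‖ ≤ b' → ‖lap G w x‖ ≤ C * b'

end

end Pool.Agent.VD
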