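import Pool.Agent.helper74.VD.SpecA3
import Pool.Agent.helper55.VD.SpecE0
import Pool.Agent.helper55.VD.SpecE1
import Pool.Agent.helper55.VD.SpecE2

/-!
# Project VD (MP_07c750_an, quantum unique ergodicity in every dimension), block E, part 3: EIGENFUNCTIONS, rows `vd:EXX`

RULES. Row `vd:XXX`: file `Pool/Agent/<seat>/VD/XXX.lean`, `import Pool.Agent.helper55.VD.SpecE3`, `set_option autoImplicit false`, namespace `Pool.Agent.VD`, the `open` lines of this file, theorem `XXX_proof (h..) : XXX_stmt` (all other rows may be hypotheses `(h : YYY_stmt)`, no circles),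
auxiliary lemmas prefixed `XXX_`. No `convert`, `congr!`, `native_decide`, no double quotes, no `private`, no commands starting with a sharp sign.

CONSTANTS. `Adm C A` gives `0 < e2 ≤ 1/C`, `0 < z`, `C z ≤ z1`, `C z1 ≤ z2`, `C z2 ≤ 1`: all exponents `C' z2`, `C' e2` are as small as we like. `C` of a row = a large multiple of the constants of the rows which are used (`Adm` is monotone in `C`: EAM0 below). `R0` may depend on `ch, A`.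
`P_t = aF G r0 R (fP .. t) u` are the coefficients of the evolved packets (SpecA3), `QF u` the packet coefficients, `E_t = aF G r0 R (fE .. t) u` the coefficients of the errors; all rows `AXXX` of block A are in helper74/VD/SpecI.lean, SpecA3.lean, SpecA4.lean.
-/

set_option autoImplicit false

open scoped ContDiff Topology InnerProductSpace ComplexConjugate ENNReal
open MeasureTheory Filter Set

namespace Pool.Agent.VD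

open Pool.Agent.VQ (CH KZ PS perZ cmZ)
open Pool.Agent.RPQ (IsOp)

noncomputable section

variable {d : ℕ}

/-- `Adm` is monotone -/
theorem EAM0 {C C' : ℝ} {A : Par} (h : Adm C A) (h1 : 1 ≤ C') (h2 : C' ≤ C) : Adm C' A := by
  have e2 := h.e2
  have hz := h.z
  have hz1 := h.z1
  have hz2 := h.z2
  have a1 : 0 < A.z1 := by nlinarith
  have a2 : 0 < A.z2 := by nlinarith
  refine ⟨e2, ?_, hz, ?_, ?_, ?_⟩
  · nlinarith [h.e2']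
  · nlinarith
  · nlinarith
  · nlinarith [h.up]

/-- the size of the parameters -/
theorem EAM1 {C : ℝ} {A : Par} (h : Adm C A) (h1 : 1 ≤ C) : 0 < A.z ∧ A.z ≤ A.z1 ∧ 0 < A.z1 ∧ A.z1 ≤ A.z2 ∧ 0 < A.z2 ∧ C * A.z1 ≤ A.z2 ∧ C * A.z2 ≤ 1 ∧ C * A.e2 ≤ 1 := by
  have e2 := h.e2
  have hz := h.z
  have hz1 := h.z1
  have hz2 := h.z2
  have b1 : A.z ≤ A.z1 := by nlinarith
  have a1 : 0 < A.z1 := by linarith
  have b2 : A.z1 ≤ A.z2 := by nlinarith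
  exact ⟨hz, b1, a1, b2, by linarith, hz2, h.up, h.e2'⟩

/-- the index `(1, p)` -/
def y1 (Γ : Type) [Group Γ] (p : P d) : YS Γ d := (1, p)

/-- the part of phase space in the window -/
def WP (G : V d → V d →L[ℝ] V d) (r0 c R : ℝ) : Set (P d) := {p | ‖p.1‖ ≤ r0 ∧ |Ep G p| ≤ c * R ^ (-(1 / 4) : ℝ)}

/-- eigenfunctions of the metric `e^(f') G`, `f'` close to `f` -/
structure EgT (Γ : Type) [Group Γ] [MulAction Γ (V d)] (B : ℕ → ℕ → ℝ) (G : V d → V d →L[ℝ] V d) (R : ℝ) (f f' : V d → ℝ) (μ : ℝ) (φ : V d → ℂ) : Prop where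
  sm : Sm Γ B (R ^ (1 / 100 : ℝ)) R f
  inv : Inv Γ f'
  smooth : ContDiff ℝ ∞ f'
  der : ∀ (m n : ℕ) (x : V d), n ≤ 2 → ‖x‖ ≤ m → ‖iteratedFDeriv ℝ n f' x‖ ≤ B m n
  near : ∀ x, |f' x - f x| ≤ R ^ (-3 : ℝ)
  mu0 : 0 < μ
  mu1 : |Real.sqrt μ - R| ≤ R ^ (-(1 / 100) : ℝ)
  eig : Eigenfunction Γ (fun x => Real.exp (f' x) • G x) μ φ

/-- the function `u = e^((d-2) f'/4) φ` -/
def uE (f' : V d → ℝ) (φ : V d → ℂ) (x : V d) : ℂ := ((Real.exp (((d : ℝ) - 2) / 4 * f' x) : ℝ) : ℂ) * φ x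

/-- approximate solutions `Hop u = (R/2) f u + small` -/
structure Ap (Γ : Type) [Group Γ] [MulAction Γ (V d)] (B : ℕ → ℕ → ℝ) (G : V d → V d →L[ℝ] V d) (F : Set (V d)) (R : ℝ) (f : V d → ℝ) (u : V d → ℂ) : Prop where
  sm : Sm Γ B (R ^ (1 / 100 : ℝ)) R f
  fh : FH (⊤ : Subgroup Γ) F u
  cd : ContDiff ℝ 2 u
  hh : FH (⊤ : Subgroup Γ) F (Hop G R u)
  res : ∀ z, ‖Hop G R u z - ((R / 2 * f z : ℝ) : ℂ) * u z‖ ≤ R ^ (-(1 / 101) : ℝ) * ‖u z‖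
  bd : ∀ z, ‖Hop G R u z‖ ≤ 2 * R ^ (1 / 100 : ℝ) * ‖u z‖

/-! ## The eigenfunction -/

/-- **Row EE1** (`Hop` of the eigenfunction; medium; from EHL, EHD, EHC, EHI, EHB). `w = e^((d-2) f'/4)`, `u = w φ`, `lap (e^f' G) φ = - μ φ`. EHL: `lap G u = w e^f' (- μ φ) + φ lap G w = - (μ e^f' + V1) u`, `V1 = - (lap G w)/w` (real: EHC). So `Hop u = (2R)⁻¹ (μ e^f' - R² + V1) u`.
`V1` is invariant (EHI, `Inv Γ w`; `Cls.isom`, `FdK.smooth`), so bounded by its supremum over `K` (in a ball of radius `m`): EHB with `b` = maximum of `B m 0, B m 1` (`Cls.lo`, `Cls.bd`), the derivatives of `w` of order `≤ 2` are bounded by a constant (`EgT.der`, chain rule), `w ≥` a positive constant. `|V1|/(2R) ≤ C/R`.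
`μ = R² (1 + ε2)`, `|ε2| ≤ 3 R^(-1-1/100)`, `e^f' = e^(f + ε1)`, `|ε1| ≤ R^(-3)`, `|f| ≤ R^(1/100-1)`: `(R/2) |(1 + ε2) e^(f+ε1) - 1 - f| ≤ 4 R^(-1/100)` (`|e^x - 1 - x| ≤ x²`), compare Pool/Agent/helper55/VQ/EDH.lean (the same computation with `U = 1`). Total `≤ R^(-1/101)`. Last part: `(R/2) |f| ≤ R^(1/100)/2`.
`FH`: `φ` and `f'` are invariant and continuous, `Hop u` is continuous (EHC) and invariant (EHI); `F` is bounded (`FD.bdd`). -/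
def EE1_stmt : Prop := ∀ (d : ℕ) (Γ : Type) [Group Γ] [MulAction Γ (V d)] (K : Set (V d)) (k : ℝ) (B : ℕ → ℕ → ℝ), FdK Γ K → ∃ R0 : ℝ, 2 ≤ R0 ∧ ∀ (F : Set (V d)) (G : V d → V d →L[ℝ] V d) (R : ℝ) (f f' : V d → ℝ) (μ : ℝ) (φ : V d → ℂ), R0 ≤ R → FD Γ F → Cls Γ K k B G →
  EgT Γ B G R f f' μ φ → Ap Γ B G F R f (uE f' φ)

/-- **Row EYP** (integrals over the fundamental domain `{1} × P`; short-medium; PURE measure theory). `mY Γ d` is the product of the counting measure on `Γ` (σ-algebra `⊤`) and Lebesgue measure, the set `DT d {1}` is `{1} ×ˢ univ`: `Measure.prod_restrict`-like, `Measure.count` restricted to `{1}` is the Dirac measure at `1`;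
the map `p ↦ (1, p)` from `P d` to `YS Γ d` is a measurable embedding with range `DT d {1}` and `mY.restrict (DT d {1}) = volume.map (1, ·)` (`MeasurableEmbedding.integral_map`, `lintegral_map`). `WP G r0 c R` is the preimage of `GW Γ G r0 c R`, closed if `Ep G` is continuous (`IsMetric G`: EHD), so `GW` is measurable. -/
def EYP_stmt : Prop := ∀ (d : ℕ) (Γ : Type) [Group Γ] [Countable Γ] (G : V d → V d →L[ℝ] V d) (r0 c R : ℝ), IsMetric G → MeasurableSet (WP G r0 c R) ∧ MeasurableSet (GW Γ G r0 c R) ∧ SigmaFinite (mY Γ d) ∧ MeasurableEmbedding (fun p : P d => y1 Γ p) ∧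
  (∀ g : YS Γ d → ℝ, ∫ y in DT d {(1 : Γ)} ∩ GW Γ G r0 c R, g y ∂mY Γ d = ∫ p in WP G r0 c R, g (y1 Γ p)) ∧ (∀ g : YS Γ d → ENNReal, ∫⁻ y in DT d {(1 : Γ)} ∩ GW Γ G r0 c R, g y ∂mY Γ d = ∫⁻ p in WP G r0 c R, g (y1 Γ p)) ∧
  volume (WP G r0 c R) < ⊤

/-! ## Transport -/

/-- **Row EEF** (FREEZING; medium; from EPK, AFMD, AFBD, AFRD, ACNF, AMVI). The family `f' y w = (g w - g (Φ t y.2).1) fP y w` is `Fa` with `m' = C_K L R^(-1/2+η) R^(3d/4 + C z1)`, `η = C z1` (`cont`: `Φ` is continuous; `inv`: only `y.2` occurs; `pk`: EPK at the point `q = Φ t y.2`, which is in a fixed ball for `0 ≤ t ≤ 1`, `y ∈ GW 2 R`: ACNF;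
so `N` = the maximum of `Kd + 1` and of the radius of this ball plus `1`). `g` is invariant, so `g z = g (y.1⁻¹ z)` and the function of the statement is `aF .. f' φ` on the window (the integrands are continuous with compact support: AFRD). AFBD: `(C_K L R^(-1/2 + C' z1))² nn φ ≤ L² R^(-9/10) nn φ`. -/
def EEF_stmt : Prop := ∀ (d : ℕ) (Γ : Type) [Group Γ] [MulAction Γ (V d)] (K : Set (V d)) (k : ℝ) (B : ℕ → ℕ → ℝ) (r0 : ℝ) (χ : V d → ℝ), FdK Γ K → PU Γ r0 χ → ∃ C : ℝ, 1 ≤ C ∧ ∀ (ch : ℝ → ℝ) (A : Par), CH ch → Adm C A → ∃ (N : ℕ) (R0 : ℝ), 1 ≤ R0 ∧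
  ∀ (R t L : ℝ) (F : Set (V d)) (G : V d → V d →L[ℝ] V d) (Φ : ℝ → P d → P d) (φ : V d → ℂ) (g : V d → ℝ), R0 ≤ R → FD Γ F → OKA Γ K k B G Φ → FH (⊤ : Subgroup Γ) F φ → Inv Γ g → ContDiff ℝ ∞ g → 0 ≤ L → (∀ n ≤ N, ∀ x : V d, ‖x‖ ≤ N → ‖iteratedFDeriv ℝ n g x‖ ≤ L) → 0 ≤ t → t ≤ 1 →
    nP G r0 {(1 : Γ)} 2 R (fun y => aF G r0 R (fP G Φ χ ch A.z A.z1 R t) (fun z => ((g z : ℝ) : ℂ) * φ z) y - ((g (Φ t y.2).1 : ℝ) : ℂ) * aF G r0 R (fP G Φ χ ch A.z A.z1 R t) φ y) ≤ L ^ 2 * R ^ (-(9 / 10) : ℝ) * nn G F φ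

/-- **Row EED** (the derivative in `t`; medium; from ABMR, ACNF, AMVI, EHG, EHC). `y = (1, p) ∈ GW 2 R`, so `aF` is the integral, and `pF (fP ..) y z = χ(x) c_R bt .. p t z`. ABMR: `∂_t bt = - i Hop bt - i Eb`, everything is continuous in `((p, t), z)` and, for `p ∈ WP` and `t` in a bounded interval, supported in a fixed compact set of `z` (`‖z - (Φ t p).1‖ ≤ 1`, `Φ` continuous):
differentiate under the integral (`hasDerivAt_integral_of_dominated_loc_of_deriv_le`). `∂_t conj psi = i conj (Hop psi) + i conj Er` and `∫ u conj (Hop psi) dmv = ∫ (Hop u) conj psi dmv` by Green's formula (EHG with the function `conj psi` of compact support, EHC: `lap (conj ψ) = conj (lap ψ)`; `∫ .. ∂mv = ∫ dens • ..`: AMVI).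
Continuity on `WP ×ˢ Icc 0 1`: dominated convergence (`continuousOn_of_dominated`; `WP` is bounded, `Φ` is bounded on it) or `continuous_parametric_integral_of_continuous` on a compact set. -/
def EED_stmt : Prop := ∀ (d : ℕ) (Γ : Type) [Group Γ] [MulAction Γ (V d)] (K : Set (V d)) (k : ℝ) (B : ℕ → ℕ → ℝ) (r0 : ℝ) (χ : V d → ℝ), FdK Γ K → PU Γ r0 χ → ∃ C : ℝ, 1 ≤ C ∧ ∀ (ch : ℝ → ℝ) (A : Par), CH ch → Adm C A → ∃ R0 : ℝ, 1 ≤ R0 ∧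
  ∀ (R : ℝ) (G : V d → V d →L[ℝ] V d) (Φ : ℝ → P d → P d) (u : V d → ℂ), R0 ≤ R → OKA Γ K k B G Φ → ContDiff ℝ 2 u →
    (∀ p ∈ WP G r0 2 R, ∀ t ∈ Icc (0 : ℝ) 1, HasDerivAt (fun s => aF G r0 R (fP G Φ χ ch A.z A.z1 R s) u (y1 Γ p))
      (Complex.I * aF G r0 R (fP G Φ χ ch A.z A.z1 R t) (Hop G R u) (y1 Γ p) + Complex.I * aF G r0 R (fE G Φ χ ch A.z A.z1 R t) u (y1 Γ p)) t) ∧
    (∀ v : V d → ℂ, Continuous v → ContinuousOn (fun x : P d × ℝ => aF G r0 R (fP G Φ χ ch A.z A.z1 R x.2) v (y1 Γ x.1)) (WP G r0 2 R ×ˢ Icc 0 1)) ∧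
    ContinuousOn (fun x : P d × ℝ => aF G r0 R (fE G Φ χ ch A.z A.z1 R x.2) u (y1 Γ x.1)) (WP G r0 2 R ×ˢ Icc 0 1)

/-- **Row EET** (TRANSPORT; medium; from EAX, EED, EEF, EYP, ASAD, AFBD, AFMD, AFRD, AQSD, ADMD; compare Pool/Agent/helper55/VQ/EDT.lean). EAX on `X = P d`, `S = WP G r0 2 R`, `p s x = P_s (1, x)`, `g s x = (R/2) f ((Φ s x).1)` (continuous in `s`), `r = P_s (Hop u) - g P_s (u) + E_s` (EED).
`r = [P_s ((R/2) f u) - g P_s u] + P_s (Hop u - (R/2) f u) + E_s`: EEF with the function `(R/2) f`, `L = C' R^(1/100)` (`Sm.der`; `C'` = the maximum of the `B m n`, `m, n ≤ N`): `≤ C'² R^(2/100 - 9/10) nn u`; `≤ 4 R^(-2/101) nn u` (ASAD, `Ap.res`: the function `Hop u - (R/2) f u` is `FH`); errors: `≤ (R^(-1/2 + C z1))² nn u` (AFMD, AFBD). So `nP (P_t - e^(iθ_t) P_0) ≤ 40 R^(-2/101) nn u`.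
`P_0 - QF u` on the window: coefficients of the family `fP 0 - fG` (AFMD with `M = 3d/4 + 10`, AFBD): `≤ R^(-8) nn u`. `nP (x + y) ≤ 2 nP x + 2 nP y`. Measurability: EED (continuity on `WP ×ˢ Icc 0 1`). -/
def EET_stmt : Prop := ∀ (d : ℕ) (Γ : Type) [Group Γ] [MulAction Γ (V d)] (K : Set (V d)) (k : ℝ) (B : ℕ → ℕ → ℝ) (r0 : ℝ) (χ : V d → ℝ), FdK Γ K → PU Γ r0 χ → ∃ C : ℝ, 1 ≤ C ∧ ∀ (ch : ℝ → ℝ) (A : Par), CH ch → Adm C A → ∃ R0 : ℝ, 1 ≤ R0 ∧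
  ∀ (R t : ℝ) (F : Set (V d)) (G : V d → V d →L[ℝ] V d) (Φ : ℝ → P d → P d) (f : V d → ℝ) (u : V d → ℂ), R0 ≤ R → FD Γ F → OKA Γ K k B G Φ → Ap Γ B G F R f u → 0 ≤ t → t ≤ 1 →
    nP G r0 {(1 : Γ)} 2 R (fun y => aF G r0 R (fP G Φ χ ch A.z A.z1 R t) u y - Complex.exp (((thP Φ f R t y.2 : ℝ) : ℂ) * Complex.I) * QF G χ ch A.z R u y) ≤ R ^ (-(1 / 60) : ℝ) * nn G F u

/-- **Row EE2** (THE ENERGY WINDOW; short-medium; from AELD, AQAD, AISD, AQSD, ADMD). AELD with `E0 = 0`, `c = 1` and `c = 2`: `lap u + R² u = - 2 R Hop u`, `nn (..) ≤ 4 R² · 4 R^(1/50) nn u` (`Ap.bd`), so the mass of `QF u` outside `GW c` is at most `R^(1/2 + 9 z) (16 R^(-2+1/50) + R^(-1)) nn u ≤ 2 R^(-1/2 + 9 z) nn u`. AQAD: second and first claim and the third; fourth: AISD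
(total mass `≥ (1 - R^(-1/4)) nn u`) minus the mass outside `GW 1`. All exponents `-1/5` for large `R` (`9 z ≤ 1/100`). `Ap.fh`, `Ap.cd`. The setting is `Dm ⊤ F {1}` (`Or.inl`). -/
def EE2_stmt : Prop := ∀ (d : ℕ) (Γ : Type) [Group Γ] [MulAction Γ (V d)] (K : Set (V d)) (k : ℝ) (B : ℕ → ℕ → ℝ) (r0 : ℝ) (χ : V d → ℝ), FdK Γ K → PU Γ r0 χ → ∃ C : ℝ, 1 ≤ C ∧ ∀ (ch : ℝ → ℝ) (A : Par), CH ch → Adm C A → ∃ R0 : ℝ, 1 ≤ R0 ∧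
  ∀ (R : ℝ) (F : Set (V d)) (G : V d → V d →L[ℝ] V d) (f : V d → ℝ) (u : V d → ℂ), R0 ≤ R → FD Γ F → Cls Γ K k B G → Ap Γ B G F R f u →
    FP (⊤ : Subgroup Γ) {(1 : Γ)} (QF G χ ch A.z R u) ∧ nn G F (fun z => Qs G r0 χ ch A.z R (QF (Γ := Γ) G χ ch A.z R u) z - u z) ≤ R ^ (-(1 / 5) : ℝ) * nn G F u ∧ nP G r0 {(1 : Γ)} 2 R (QF G χ ch A.z R u) ≤ (1 + R ^ (-(1 / 5) : ℝ)) * nn G F u ∧
    (1 - R ^ (-(1 / 5) : ℝ)) * nn G F u ≤ nP G r0 {(1 : Γ)} 1 R (QF G χ ch A.z R u) ∧ nP G r0 {(1 : Γ)} 1 R (QF G χ ch A.z R u) ≤ nP G r0 {(1 : Γ)} 2 R (QF G χ ch A.z R u)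

/-- **Row EO1** (ONE UNIT STEP; short-medium; from EE2, EET, ASAD, AQSD and ATSD of SpecA4 (`Op us v = aF (fP 1) (Qs v) + O(R^(-8))`); compare Pool/Agent/helper55/VQ/ED1.lean). `Qs (QF u) = u + χ`, `nn χ ≤ R^(-1/5) nn u`, `nP (aF (fP 1) χ) ≤ 4 nn χ`, EET with `t = 1`: `3 (R^(-8) + 4 R^(-1/5) + R^(-1/60)) ≤ R^(-1/70)`. -/
def EO1_stmt : Prop := ∀ (d : ℕ) (Γ : Type) [Group Γ] [MulAction Γ (V d)] (K : Set (V d)) (k : ℝ) (B : ℕ → ℕ → ℝ) (r0 : ℝ) (χ : V d → ℝ), FdK Γ K → PU Γ r0 χ → ∃ C : ℝ, 1 ≤ C ∧ ∀ (ch : ℝ → ℝ) (A : Par), CH ch → Adm C A → ∃ R0 : ℝ, 1 ≤ R0 ∧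
  ∀ (R : ℝ) (F : Set (V d)) (G : V d → V d →L[ℝ] V d) (Φ : ℝ → P d → P d) (f : V d → ℝ) (u : V d → ℂ), R0 ≤ R → FD Γ F → OKA Γ K k B G Φ → Ap Γ B G F R f u →
    nP G r0 {(1 : Γ)} 2 R (fun y => Op (us G Φ r0 χ ch A R) (QF G χ ch A.z R u) y - Complex.exp (((thP Φ f R 1 y.2 : ℝ) : ℂ) * Complex.I) * QF G χ ch A.z R u y) ≤ R ^ (-(1 / 70) : ℝ) * nn G F u

/-! ## Slowly varying functions, phases -/

/-- **Row EEG** (NEIGHBOURS STAY NEIGHBOURS IN A COMMON CHART; medium; from ACNF, ASGF, ALFX). Induction over unit times. `r1 ≥ r, sup_K ‖x‖ + 1`. Claim for integers `j`: there is `γ_j` with `γ_j • (Φ j p).1 ∈ K` and `dist (lft γ_j (Φ j p)) (lft γ_j (Φ j q)) ≤ C1^(2j+1) s` as long as this is `≤ 1`. Step: `p' = lft γ_j (Φ j p)`, `q'` = the same for `q`: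
base points in the ball `r1`, `Ham ≤ 1` (ALFX), so `dist (Φ 1 p') (Φ 1 q') ≤ C1 dist p' q'` and both are in a ball of radius `r2` (ACNF). Choose `κ` with `κ • (Φ 1 p').1 ∈ K` (`FdK.cover`): `κ ∈ SG Γ d r2`, `lft κ` is Lipschitz on the ball (ASGF). `γ_(j+1) = κ γ_j` (`lft_mul`, equivariance of the flow). The start (`j = 0`): ASGF. The last fractional time: the same step with
`|t| ≤ 1`. `C1^(2 ⌈t⌉ + 3) ≤ C exp (C t)`. -/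
def EEG_stmt : Prop := ∀ (d : ℕ) (Γ : Type) [Group Γ] [MulAction Γ (V d)] (K : Set (V d)) (k : ℝ) (B : ℕ → ℕ → ℝ) (r : ℝ), FdK Γ K → ∃ C : ℝ, 1 ≤ C ∧ ∀ (G : V d → V d →L[ℝ] V d) (Φ : ℝ → P d → P d) (p q : P d) (t s : ℝ), OKA Γ K k B G Φ → ‖p.1‖ ≤ r → ‖q.1‖ ≤ r →
  Ham G p ≤ 1 → Ham G q ≤ 1 → 0 ≤ t → dist p q ≤ s → C * Real.exp (C * t) * s ≤ 1 → ∃ γ : Γ, γ • (Φ t p).1 ∈ K ∧ dist (lft γ (Φ t p)) (lft γ (Φ t q)) ≤ C * Real.exp (C * t) * s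

/-- **Row EEH** (INVARIANT FUNCTIONS ALONG NEIGHBOURS; short-medium; from EEG, ACNF, ALFX). `St y y'`: `p = Φ 1 y.2`, `q = rel y y' = lft γ' y'.2`, `dist p q < R^(-1/2+z2) ≤ 1`, `p.1` in a fixed ball (ACNF), `Ham p = Ham y.2 ≤ 1`, `Ham q = Ham y'.2 ≤ 1` (ALFX). EEG with `s = A.r R`: `C e^(C t) s ≤ R^(-1/3)` (`t ≤ tu R ≤ e2 log R + 1`, `C' e2 ≤ 1`, `C' z2 ≤ 1`).
`g (Φ (t+1) y.2).1 = g (Φ t p).1 = g ((lft γ (Φ t p)).1)`, `g (Φ t y'.2).1 = g ((lft γ' (Φ t y'.2)).1) = g (Φ t q).1 = g ((lft γ (Φ t q)).1)` (ALFX, invariance, `(lft γ p).1 = γ • p.1`); mean value inequality on the segment between the two points near `K` (in a ball of radius `C`; `dist` of `P d` is the maximum of the two components). -/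
def EEH_stmt : Prop := ∀ (d : ℕ) (Γ : Type) [Group Γ] [MulAction Γ (V d)] (K : Set (V d)) (k : ℝ) (B : ℕ → ℕ → ℝ) (r0 : ℝ), FdK Γ K → ∃ C : ℝ, 1 ≤ C ∧ ∀ A : Par, Adm C A → ∃ R0 : ℝ, 1 ≤ R0 ∧
  ∀ (R t L : ℝ) (G : V d → V d →L[ℝ] V d) (Φ : ℝ → P d → P d) (g : V d → ℝ) (y y' : YS Γ d), R0 ≤ R → OKA Γ K k B G Φ → Inv Γ g → ContDiff ℝ 1 g → 0 ≤ L → (∀ x : V d, ‖x‖ ≤ C → ‖fderiv ℝ g x‖ ≤ L) → St G Φ r0 (A.r R) R y y' → 0 ≤ t → t ≤ A.tu R →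
    |g (Φ (t + 1) y.2).1 - g (Φ t y'.2).1| ≤ L * R ^ (-(1 / 3) : ℝ)

/-- **Row EEY** (THE PHASES; short-medium; from EEH). (1) `∫_0^(s+t) = ∫_0^s + ∫_s^(s+t)`, substitution and `IsFlow.add`. (2) continuous in `p` (`IsFlow.smooth`, parametric interval integral), so measurable on `YS Γ d` (`Measurable.snd`; the σ-algebra of `YS`). (3) `thP (t+1) y.2 - thP 1 y.2 = thP t (Φ 1 y.2) = (R/2) ∫_0^t f (Φ (s+1) y.2).1 ds`, EEH for `f` with `L = C' R^(1/100)/R`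
(`Sm.der`, order 1; `C'` = `B m 1`): `(R/2) tu R · C' R^(1/100 - 1) R^(-1/3) ≤ R^(-1/4)`. -/
def EEY_stmt : Prop := ∀ (d : ℕ) (Γ : Type) [Group Γ] [MulAction Γ (V d)] (K : Set (V d)) (k : ℝ) (B : ℕ → ℕ → ℝ) (r0 : ℝ), FdK Γ K → ∃ C : ℝ, 1 ≤ C ∧ ∀ A : Par, Adm C A → ∃ R0 : ℝ, 1 ≤ R0 ∧
  ∀ (R : ℝ) (G : V d → V d →L[ℝ] V d) (Φ : ℝ → P d → P d) (f : V d → ℝ), R0 ≤ R → OKA Γ K k B G Φ → Sm Γ B (R ^ (1 / 100 : ℝ)) R f →
    (∀ (s t : ℝ) (p : P d), thP Φ f R (s + t) p = thP Φ f R s p + thP Φ f R t (Φ s p)) ∧ (∀ t : ℝ, Measurable (fun y : YS Γ d => thP Φ f R t y.2)) ∧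
    ∀ (t : ℝ) (y y' : YS Γ d), St G Φ r0 (A.r R) R y y' → 0 ≤ t → t ≤ A.tu R → |thP Φ f R (t + 1) y.2 - thP Φ f R 1 y.2 - thP Φ f R t y'.2| ≤ R ^ (-(1 / 4) : ℝ)

/-! ## Time averages -/

/-- **Row EES** (short times; medium; from EET, EEF, EE2, ASAD, AFRD (duality), AFMD, ADMD; compare Pool/Agent/helper79/VQ/EDS.lean). `η(y) = h ((Φ s y.2).1) ∈ [0, 1]`. (1) `|∫ η |Φ|² - ∫ η |P_s|²| ≤ (‖Φ‖ + ‖P_s‖) ‖P_s - e^(iθ_s) Φ‖ ≤ 4 R^(-1/120) nn u` (EET). (2) EEF for `h`: `|∫ η P_s conj P_s - ∫ P_s (h u) conj P_s (u)| ≤ L R^(-9/20) · 2 nn u`.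
(3) duality with `v = P_s (u)` (`FP`): `∫ P_s (h u) conj P_s (u) = ∫_F h u conj ψ`, `ψ = sF .. (fP s) (P_s)`. (4) `nn (ψ - u) = nn ψ - 2 nP (P_s) + nn u` (duality again), `nn ψ ≤ (1 + R^(-1/4)) nP (P_s)`, `(1 - 4 R^(-1/120)) nn u ≤ nP (P_s) ≤ (1 + R^(-1/5)) nn u` (EET, EE2, block A): `nn (ψ - u) ≤ 20 R^(-1/120) nn u`,
so `|∫ h u conj ψ - ∫ h |u|²| ≤ 5 R^(-1/240) nn u`. The total is `≤ (1 + L) R^(-1/250) nn u`. -/
def EES_stmt : Prop := ∀ (d : ℕ) (Γ : Type) [Group Γ] [MulAction Γ (V d)] (K : Set (V d)) (k : ℝ) (B : ℕ → ℕ → ℝ) (r0 : ℝ) (χ : V d → ℝ), FdK Γ K → PU Γ r0 χ → ∃ C : ℝ, 1 ≤ C ∧ ∀ (ch : ℝ → ℝ) (A : Par), CH ch → Adm C A → ∃ (N : ℕ) (R0 : ℝ), 1 ≤ R0 ∧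
  ∀ (R s L : ℝ) (F : Set (V d)) (G : V d → V d →L[ℝ] V d) (Φ : ℝ → P d → P d) (f h : V d → ℝ) (u : V d → ℂ), R0 ≤ R → FD Γ F → OKA Γ K k B G Φ → Ap Γ B G F R f u → Inv Γ h → ContDiff ℝ ∞ h → (∀ x, 0 ≤ h x ∧ h x ≤ 1) → 0 ≤ L →
    (∀ n ≤ N, ∀ x : V d, ‖x‖ ≤ N → ‖iteratedFDeriv ℝ n h x‖ ≤ L) → 0 ≤ s → s ≤ 1 →
      |(∫ y in DT d {(1 : Γ)} ∩ GW Γ G r0 2 R, h (Φ s y.2).1 * ‖QF G χ ch A.z R u y‖ ^ 2 ∂mY Γ d) - ∫ z in F, h z * ‖u z‖ ^ 2 ∂mv G| ≤ (1 + L) * R ^ (-(1 / 250) : ℝ) * nn G F u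

/-- the average over the `k`-th unit of time -/
def gE (Φ : ℝ → P d → P d) (h : V d → ℝ) (k : ℕ) (p : P d) : ℝ := ∫ s in (0 : ℝ)..1, h (Φ (s + k) p).1

/-- **Row EEA** (averages; short-medium; from EEH, EES, EYP; compare the lemmas `EDV_sum`, `EDV_ms`, `EDV_fub` in Pool/Agent/helper55/VQ/EDV.lean). (1) `∫_0^(n+1) = Σ_k ∫_k^(k+1)` and substitution. (2) continuous in `p` (smooth flow), values in `[0, 1]`, so `FR` on `YS Γ d`. (3) EEH for the times `s + k ≤ tu R`, `L` = bound of the first derivative on a ball. (4) Fubini (continuous function on `WP × [0,1]` of finite measure) and EES. -/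
def EEA_stmt : Prop := ∀ (d : ℕ) (Γ : Type) [Group Γ] [MulAction Γ (V d)] (K : Set (V d)) (k : ℝ) (B : ℕ → ℕ → ℝ) (r0 : ℝ) (χ : V d → ℝ), FdK Γ K → PU Γ r0 χ → ∃ C : ℝ, 1 ≤ C ∧ ∀ (ch : ℝ → ℝ) (A : Par) (h : V d → ℝ), CH ch → Adm C A → Inv Γ h → ContDiff ℝ ∞ h → (∀ x, 0 ≤ h x ∧ h x ≤ 1) →
  ∃ R0 : ℝ, 1 ≤ R0 ∧ ∀ (R : ℝ) (F : Set (V d)) (G : V d → V d →L[ℝ] V d) (Φ : ℝ → P d → P d) (f : V d → ℝ) (u : V d → ℂ), R0 ≤ R → FD Γ F → OKA Γ K k B G Φ → Ap Γ B G F R f u →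
    (∀ p : P d, avP Φ h (A.tu R) p = ((A.n R + 1 : ℕ) : ℝ)⁻¹ * ∑ j ∈ Finset.range (A.n R + 1), gE Φ h j p) ∧ (∀ j : ℕ, VDA.FR Γ (fun y : YS Γ d => gE Φ h j y.2)) ∧
    (∀ (j : ℕ) (y y' : YS Γ d), j < A.n R + 1 → St G Φ r0 (A.r R) R y y' → |gE Φ h (j + 1) y.2 - gE Φ h j y'.2| ≤ R ^ (-(1 / 4) : ℝ)) ∧
    |(∫ y in DT d {(1 : Γ)} ∩ GW Γ G r0 2 R, gE Φ h 0 y.2 * ‖QF G χ ch A.z R u y‖ ^ 2 ∂mY Γ d) - ∫ z in F, h z * ‖u z‖ ^ 2 ∂mv G| ≤ R ^ (-(1 / 300) : ℝ) * nn G F u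

end

end Pool.Agent.VD
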