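import Pool.Agent.helper55.VD.SpecE3
import Pool.Agent.helper74.VD.SpecA4
import Pool.Agent.helper11.VD.SpecC

/-!
# Project VD (MP_07c750_an, quantum unique ergodicity in every dimension), block E, part 4: THE FIXED VECTOR AND THE TIME AVERAGES, rows `vd:EST`, `vd:EF3`, `vd:EF8`

RULES: as in SpecE3. Row `vd:XXX`: file `Pool/Agent/<seat>/VD/XXX.lean`, `import Pool.Agent.helper55.VD.SpecE4`.
-/

set_option autoImplicit false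

open scoped ContDiff Topology InnerProductSpace ComplexConjugate ENNReal
open MeasureTheory Filter Set

namespace Pool.Agent.VD

open Pool.Agent.VQ (CH KZ PS perZ cmZ)
open Pool.Agent.RPQ (IsOp)
open Pool.Agent.VDA (STP FB FR FT nY OY OA)

noncomputable section

/-- length functions -/
structure LF {Γ : Type} [Group Γ] (L : Γ → ℕ) : Prop where
  one : L 1 = 0
  inv : ∀ γ, L γ⁻¹ = L γ
  mul : ∀ γ γ', L (γ * γ') ≤ L γ + L γ'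
  fin : ∀ n, {γ | L γ ≤ n}.Finite

/-- **Row EST** (THE UNIT STEP IN THE ABSTRACT SETTING; medium; from PSY, AUMD, AUSD, ATSD, ADMD, AMVI, VQ.VSH or a direct Schur test). `mW Γ G r0 R = mWW Γ (WP G r0 2 R)` (`rfl`), so `PS` is PSY (`Γ` countable: AMVI; `WP` measurable of finite volume: ADMD or EYP). `KY K` implies `KZ Γ (dYS L) K`: the finite set `S` of `KY.range` gives `T = max_S L`.
`us` and `usn n` vanish unless both indices are in `GW 2 R` (AUMD), so `∫ .. ∂mY = ∫ .. ∂mW` (`setIntegral_eq_integral_of_forall_compl_eq_zero`): `Op K v = OY (mW) K v`, `cmZ mY = cmZ mW`. `nY (mW) (DT {1}) v = nP G r0 {1} 2 R v` (`Measure.restrict_restrict`, `DT` measurable). `FB Γ v` is `FP ⊤ {1} v` (support: the finite set `{1}`).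
`con`: ATSD with `Λ = ⊤`, `T = {1}`. `abs`: Schur test on the quotient for the kernel `‖us‖` (AUSD: row and column sums `≤ R^(C z2)`): `(∫ ‖us y x‖ ‖v x‖)² ≤ (∫ ‖us y x‖) (∫ ‖us y x‖ ‖v x‖²)`, integrate over `y ∈ DT {1}` and unfold (`∫_(y ∈ D) ∫_x f y x = ∫_(x ∈ D) ∫_y f y x` for invariant `f`: Tonelli and the action, or VQ row VSH): `≤ R^(2 C z2) nP v ≤ (R^(1/200))² nP v`. -/
def EST_stmt : Prop := ∀ (d : ℕ) (Γ : Type) [Group Γ] [MulAction Γ (V d)] (K : Set (V d)) (k : ℝ) (B : ℕ → ℕ → ℝ) (r0 : ℝ) (χ : V d → ℝ), FdK Γ K → PU Γ r0 χ → ∃ C : ℝ, 1 ≤ C ∧ ∀ (ch : ℝ → ℝ) (A : Par), CH ch → Adm C A → ∃ R0 : ℝ, 1 ≤ R0 ∧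
  ∀ (R : ℝ) (F : Set (V d)) (G : V d → V d →L[ℝ] V d) (Φ : ℝ → P d → P d) (L : Γ → ℕ), R0 ≤ R → FD Γ F → OKA Γ K k B G Φ → LF L →
    PS Γ (YS Γ d) (mW Γ G r0 R) (DT d {(1 : Γ)}) (dYS L) ∧ STP Γ (mW Γ G r0 R) (DT d {(1 : Γ)}) (dYS L) (us G Φ r0 χ ch A R) (R ^ (-(1 / 5) : ℝ)) (R ^ (1 / 200 : ℝ)) ∧
    (∀ K' : YS Γ d → YS Γ d → ℂ, KY K' → KZ Γ (dYS L) K') ∧ (∀ n : ℕ, usn (Γ := Γ) G Φ r0 χ ch A R (n + 1) = cmZ (mW Γ G r0 R) (us G Φ r0 χ ch A R) (usn G Φ r0 χ ch A R n)) ∧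
    (∀ (K' : YS Γ d → YS Γ d → ℂ) (v : YS Γ d → ℂ) (y : YS Γ d), (∀ y y', K' y y' ≠ 0 → y' ∈ GW Γ G r0 2 R) → OY (mW Γ G r0 R) K' v y = Op K' v y) ∧
    (∀ v : YS Γ d → ℂ, nY (mW Γ G r0 R) (DT d {(1 : Γ)}) v = nP G r0 {(1 : Γ)} 2 R v) ∧ ∀ v : YS Γ d → ℂ, FB Γ v ↔ FP (⊤ : Subgroup Γ) {(1 : Γ)} v

/-- **Row EF3** (THE FIXED VECTOR; short-medium; from EST, EAM, EAZ, EO1, EE2, EEY, AUMD, ATND). EAM with `m = mW`, `K = us`, `L k = usn k`, `η y = thP Φ f R 1 y.2`, `θ k y = thP Φ f R (k + 1) y.2`, `n = A.n R`, `Φ = QF u`, `N = 2 nn u`, `δ = R^(-1/140)`, `ε = R^(-1/5)`, `b = R^(1/200)`, `w = R^(-1/4)`: the condition on `θ` is EEY (`us y x ≠ 0` implies `St`: AUMD),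
the one-step estimate is EO1 (twice: `L 0 = us`, `θ 0 = η`). So `nY (OY (usn n) Φ - e^(iθ_n) Φ) ≤ ((n+1) (1 + R^(-1/5))^n (R^(-1/140) + R^(-1/4 + 1/200)))² 2 nn u ≤ R^(-1/100) nn u` (`n ≤ e2 log R ≤ log R`, `(1 + R^(-1/5))^n ≤ e`). `KB = e^(-iθ_n) ub`, `ub = usn n`, `A.tu R = n + 1`: `OY KB Φ - Φ = e^(-iθ_n) (OY ub Φ - e^(iθ_n) Φ)`.
EAZ for `KB` (a `KY`: ATND) and `v = QF u` gives `‖T Ψ - Ψ‖²` and the norm. First two claims: EE2. -/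
def EF3_stmt : Prop := ∀ (d : ℕ) (Γ : Type) [Group Γ] [MulAction Γ (V d)] (K : Set (V d)) (k : ℝ) (B : ℕ → ℕ → ℝ) (r0 : ℝ) (χ : V d → ℝ), FdK Γ K → PU Γ r0 χ → ∃ C : ℝ, 1 ≤ C ∧ ∀ (ch : ℝ → ℝ) (A : Par), CH ch → Adm C A → ∃ R0 : ℝ, 1 ≤ R0 ∧
  ∀ (R : ℝ) (F : Set (V d)) (G : V d → V d →L[ℝ] V d) (Φ : ℝ → P d → P d) (f : V d → ℝ) (u : V d → ℂ), R0 ≤ R → FD Γ F → OKA Γ K k B G Φ → Ap Γ B G F R f u →
    ∫⁻ y in DT d {(1 : Γ)}, ‖QF G χ ch A.z R u y‖ₑ ^ 2 ∂mW Γ G r0 R ≤ ENNReal.ofReal ((1 + R ^ (-(1 / 5) : ℝ)) * nn G F u) ∧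
    ENNReal.ofReal ((1 - R ^ (-(1 / 5) : ℝ)) * nn G F u) ≤ ∫⁻ y in DT d {(1 : Γ)} ∩ GW Γ G r0 1 R, ‖QF G χ ch A.z R u y‖ₑ ^ 2 ∂mW Γ G r0 R ∧
    ∀ T : Lp ℂ 2 ((mW Γ G r0 R).restrict (DT d {(1 : Γ)})) →L[ℂ] Lp ℂ 2 ((mW Γ G r0 R).restrict (DT d {(1 : Γ)})), IsOp ((mW Γ G r0 R).restrict (DT d {(1 : Γ)})) (perZ Γ (KB G Φ r0 χ ch A R f)) T →
      ∀ Ψ : Lp ℂ 2 ((mW Γ G r0 R).restrict (DT d {(1 : Γ)})), (Ψ : YS Γ d → ℂ) =ᵐ[(mW Γ G r0 R).restrict (DT d {(1 : Γ)})] QF G χ ch A.z R u → ‖T Ψ - Ψ‖ ^ 2 ≤ R ^ (-(1 / 100) : ℝ) * nn G F u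

/-- **Row EF8** (THE TIME AVERAGES; short-medium; from EST, EAT, EEA, EO1, EE2, EEY, AUMD). EAT (second part) with `m = mW`, `K = us`, `η y = thP Φ f R 1 y.2`, `Φ = QF u`, `G k y = gE Φ h k y.2`, `n = A.n R + 1`, `w = R^(-1/4)` (EEA third part, AUMD), `b = R^(1/200)`, `δ = R^(-1/150)`: EO1 gives `≤ R^(-1/70) nn u ≤ 2 R^(-1/70) nY Φ ≤ δ² nY Φ` (EE2: `nY Φ ≥ nP 1 ≥ nn u/2`).
The error is `n (R^(-1/4 + 1/200) + 11 R^(-1/300)) 2 nn u ≤ R^(-1/400) nn u/2` (`n ≤ log R + 1`). `avP` = the average of the `gE` (EEA first part), `∫ G 0 |QF u|²` against `∫_F h |u|²`: EEA fourth part (`R^(-1/300) nn u`). Integrals over `DT {1}` with respect to `mW` are integrals over `DT {1} ∩ GW 2` with respect to `mY`. -/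
def EF8_stmt : Prop := ∀ (d : ℕ) (Γ : Type) [Group Γ] [MulAction Γ (V d)] (K : Set (V d)) (k : ℝ) (B : ℕ → ℕ → ℝ) (r0 : ℝ) (χ : V d → ℝ), FdK Γ K → PU Γ r0 χ → ∃ C : ℝ, 1 ≤ C ∧ ∀ (ch : ℝ → ℝ) (A : Par) (h : V d → ℝ), CH ch → Adm C A → Inv Γ h → ContDiff ℝ ∞ h → (∀ x, 0 ≤ h x ∧ h x ≤ 1) →
  ∃ R0 : ℝ, 1 ≤ R0 ∧ ∀ (R : ℝ) (F : Set (V d)) (G : V d → V d →L[ℝ] V d) (Φ : ℝ → P d → P d) (f : V d → ℝ) (u : V d → ℂ), R0 ≤ R → FD Γ F → OKA Γ K k B G Φ → Ap Γ B G F R f u →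
    |(∫ y in DT d {(1 : Γ)}, avP Φ h (A.tu R) y.2 * ‖QF G χ ch A.z R u y‖ ^ 2 ∂mW Γ G r0 R) - ∫ z in F, h z * ‖u z‖ ^ 2 ∂mv G| ≤ R ^ (-(1 / 400) : ℝ) * nn G F u

/-- **Row EFM** (from `u` back to the eigenfunction; short; from EHD, AMVI). `u = e^((d-2) f'/4) φ`, `dens (e^f' G) = e^(d f'/2) dens G` (EHD), so `|φ|² dens (e^f' G) = e^f' |u|² dens G`, and `|e^f' - 1| ≤ 4 R^(-99/100)` (`|f'| ≤ |f| + R^(-3)`). `∫ .. ∂mv G = ∫ dens G • ..` (AMVI). Everything is integrable: continuous functions on the bounded measurable set `F` (`FD.bdd`, `FD.meas`). -/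
def EFM_stmt : Prop := ∀ (d : ℕ) (Γ : Type) [Group Γ] [MulAction Γ (V d)] (K : Set (V d)) (k : ℝ) (B : ℕ → ℕ → ℝ), FdK Γ K → ∃ R0 : ℝ, 1 ≤ R0 ∧ ∀ (R μ : ℝ) (F : Set (V d)) (G : V d → V d →L[ℝ] V d) (f f' h : V d → ℝ) (φ : V d → ℂ), R0 ≤ R → FD Γ F → Cls Γ K k B G → EgT Γ B G R f f' μ φ → Continuous h → (∀ x, |h x| ≤ 1) →
  |(∫ x in F, h x * ‖φ x‖ ^ 2 * dens (fun x => Real.exp (f' x) • G x) x) - ∫ z in F, h z * ‖uE f' φ z‖ ^ 2 ∂mv G| ≤ R ^ (-(1 / 2) : ℝ) * nn G F (uE f' φ) ∧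
  nn G F (uE f' φ) ≤ 2 * ∫ x in F, ‖φ x‖ ^ 2 * dens (fun x => Real.exp (f' x) • G x) x

end

end Pool.Agent.VD
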